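import Pool.Agent.H22.EQ.Lim

/-! Inscribed caps in equilibrium: the theorem. -/

set_option autoImplicit false

open Set Filter Metric Module
open scoped Topology ContDiff RealInnerProductSpace Gradient

noncomputable section

namespace Pool.Agent.H22.EQ

variable {E : Type} [NormedAddCommGroup E] [InnerProductSpace ℝ E]

/-- finite nets -/
theorem exists_net {F : Type*} [PseudoMetricSpace F] {Y : Set F} (hY : IsCompact Y)
    (hne : Y.Nonempty) {ε : ℝ} (hε : 0 < ε) :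
    ∃ T : Finset F, (∀ y ∈ T, y ∈ Y) ∧ T.Nonempty ∧ ∀ y ∈ Y, ∃ y' ∈ T, dist y y' < ε := by
  obtain ⟨t, ht, htf, hcov⟩ := hY.finite_cover_balls hε
  refine ⟨htf.toFinset, fun y hy => ht (htf.mem_toFinset.1 hy), ?_, fun y hy => ?_⟩
  · obtain ⟨y, hy⟩ := hne
    obtain ⟨y', hy', -⟩ := mem_iUnion₂.1 (hcov hy)
    exact ⟨y', htf.mem_toFinset.2 hy'⟩
  · obtain ⟨y', hy', h⟩ := mem_iUnion₂.1 (hcov hy)
    exact ⟨y', htf.mem_toFinset.2 hy', h⟩

theorem caps {n : ℕ} [Fact (finrank ℝ E = n + 1)] {R : E → ℝ} (hR : ContDiff ℝ ∞ R)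
    (hreg : ∀ x, ‖x‖ = 1 → R x = 0 → ∃ v, ⟪x, v⟫ = 0 ∧ fderiv ℝ R x v ≠ 0)
    (hconn : IsConnected {x : sphere (0:E) 1 | R x ≤ 0})
    (hball : ¬Pool.Agent.Q100.SS.IsBallS n {x : sphere (0:E) 1 | R x ≤ 0})
    (hsc : SimplyConnectedSpace {x : sphere (0:E) 1 | R x = 0}) :
    ∃ x : E, ‖x‖ = 1 ∧ ∃ c : ℝ, 0 < c ∧ c < 1 ∧ (∀ y, ‖y‖ = 1 → c < ⟪x, y⟫ → R y < 0) ∧
      ∃ Z : Finset E, Z.card + 1 ≤ n ∧ (∀ z ∈ Z, ‖z‖ = 1 ∧ R z = 0 ∧ ⟪x, z⟫ = c) ∧
      c • x ∈ convexHull ℝ (Z : Set E) := by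
  classical
  have : FiniteDimensional ℝ E := FiniteDimensional.of_finrank_pos (by
    rw [Fact.out (p := finrank ℝ E = n + 1)]; omega)
  have : ProperSpace E := FiniteDimensional.proper ℝ E
  set M : Set E := {z | ‖z‖ = 1 ∧ R z = 0} with hMdef
  have hM : IsCompact M := by
    refine (isCompact_sphere (0:E) 1).of_isClosed_subset ?_ fun z hz => by simpa using hz.1
    exact (isClosed_eq continuous_norm continuous_const).inter
      (isClosed_eq hR.continuous continuous_const)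
  have hMne : ∃ z : E, ‖z‖ = 1 ∧ R z = 0 := by
    obtain ⟨x⟩ : Nonempty {x : sphere (0:E) 1 | R x = 0} := inferInstance
    exact ⟨x, by simp, x.2⟩
  obtain ⟨τ, hτ0, hτ1, hext⟩ := ext hR hreg hMne
  set Y : Set E := pt R τ '' M with hYdef
  have hY : IsCompact Y := hM.image_of_continuousOn (pt_cont hR hreg τ)
  have hYne : Y.Nonempty := by
    obtain ⟨z, hz⟩ := hMne
    exact ⟨_, z, hz, rfl⟩
  have hY1 : ∀ y ∈ Y, ‖y‖ = 1 := by
    rintro _ ⟨z, hz, rfl⟩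
    exact pt_norm hz.1 (tg_ne hR hreg hz.1 hz.2) τ
  have hnet := fun k : ℕ => exists_net hY hYne (ε := 1 / ((k:ℝ) + 1)) (by positivity)
  choose T hTY hTne hTd using hnet
  set l : ℕ → ℝ := fun k => ((k:ℝ) + 1) * (T k).card with hldef
  have hTc : ∀ k, (1:ℝ) ≤ (T k).card := fun k => by
    exact_mod_cast (Finset.card_pos.2 (hTne k))
  have hl : ∀ k, 0 < l k := fun k => by
    have := hTc k
    have h2 : (0:ℝ) < (k:ℝ) + 1 := by positivity
    exact mul_pos h2 (by linarith)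
  have hap := fun k => approx hR hreg hconn hball hsc (hTne k)
    (fun y hy => hY1 y (hTY k y hy)) (hl k)
  choose x a b hx hRx ha hb htg hneg using hap
  set P : ℕ → E := fun k => ∑ y ∈ T k, wt (T k) (l k) (x k) y • y with hPdef
  have hPY : ∀ k, P k ∈ convexHull ℝ Y := fun k =>
    (convex_convexHull ℝ Y).sum_mem (fun y _ => (wt_pos (hTne k) y).le) (sum_wt (hTne k))
      fun y hy => subset_convexHull ℝ Y (hTY k y hy)
  have hP1 : ∀ k, ‖P k‖ ≤ 1 := fun k => by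
    have h : convexHull ℝ Y ⊆ closedBall (0:E) 1 :=
      convexHull_min (fun y hy => by simpa using (hY1 y hy).le) (convex_closedBall 0 1)
    simpa using h (hPY k)
  have hmax : ∀ k, ∀ y ∈ Y, ⟪x k, y⟫ ≤ ⟪x k, P k⟫ + (1 / ((k:ℝ) + 1) + 1 / ((k:ℝ) + 1)) := by
    intro k y hy
    obtain ⟨y', hy', hd⟩ := hTd k y hy
    have h1 := gibbs (x := x k) (hl k) hy'
    have h2 : ⟪x k, P k⟫ = ∑ y ∈ T k, wt (T k) (l k) (x k) y * ⟪x k, y⟫ := by
      rw [hPdef]
      show ⟪x k, ∑ y ∈ T k, wt (T k) (l k) (x k) y • y⟫ = _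
      rw [inner_sum]
      exact Finset.sum_congr rfl fun y _ => inner_smul_right _ _ _
    have h3 : (T k).card / l k = 1 / ((k:ℝ) + 1) := by
      have h4 : (0:ℝ) < (k:ℝ) + 1 := by positivity
      have h5 : ((T k).card : ℝ) ≠ 0 := by linarith [hTc k] |> ne_of_gt
      rw [hldef]
      field_simp
    have h4 : ⟪x k, y⟫ - ⟪x k, y'⟫ ≤ 1 / ((k:ℝ) + 1) := by
      rw [← inner_sub_right]
      calc ⟪x k, y - y'⟫ ≤ ‖x k‖ * ‖y - y'‖ := real_inner_le_norm _ _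
        _ ≤ _ := by rw [hx k, one_mul, ← dist_eq_norm]; exact hd.le
    rw [← h2, h3] at h1
    linarith
  -- the subsequence
  obtain ⟨⟨x0, a0, b0, P0⟩, -, φ, hφ, hlim⟩ :=
    (isCompact_closedBall (0 : E × E × E × E) 1).tendsto_subseq
      (x := fun k => (x k, a k, b k, P k)) fun k => by
        rw [mem_closedBall, dist_zero_right, Prod.norm_mk, Prod.norm_mk, Prod.norm_mk]
        exact max_le (hx k).le (max_le (ha k) (max_le (hb k) (hP1 k)))
  have lx : Tendsto (fun k => x (φ k)) atTop (𝓝 x0) := hlim.fst_nhds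
  have la : Tendsto (fun k => a (φ k)) atTop (𝓝 a0) := hlim.snd_nhds.fst_nhds
  have lb : Tendsto (fun k => b (φ k)) atTop (𝓝 b0) := hlim.snd_nhds.snd_nhds.fst_nhds
  have lP : Tendsto (fun k => P (φ k)) atTop (𝓝 P0) := hlim.snd_nhds.snd_nhds.snd_nhds
  have le : Tendsto (fun k => 1 / ((φ k : ℝ) + 1)) atTop (𝓝 0) :=
    tendsto_one_div_add_atTop_nhds_zero_nat.comp hφ.tendsto_atTop
  have hx0 : ‖x0‖ = 1 := tendsto_nhds_unique lx.norm (by simp only [hx]; exact tendsto_const_nhds)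
  have lR : Tendsto (fun k => R (x (φ k))) atTop (𝓝 (R x0)) :=
    (hR.continuous.tendsto x0).comp lx
  have hRx0 : R x0 ≤ 0 := le_of_tendsto' lR fun k => hRx _
  have lxP : Tendsto (fun k => ⟪x (φ k), P (φ k)⟫) atTop (𝓝 ⟪x0, P0⟫) := lx.inner lP
  have hmax0 : ∀ z, ‖z‖ = 1 → R z = 0 → ⟪x0, pt R τ z⟫ ≤ ⟪x0, P0⟫ := by
    intro z hz hRz
    have h1 : Tendsto (fun k => ⟪x (φ k), P (φ k)⟫ + (1 / ((φ k : ℝ) + 1) + 1 / ((φ k : ℝ) + 1)))
        atTop (𝓝 (⟪x0, P0⟫ + (0 + 0))) := lxP.add (le.add le)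
    rw [add_zero, add_zero] at h1
    exact le_of_tendsto_of_tendsto' (lx.inner tendsto_const_nhds) h1 fun k =>
      hmax _ _ ⟨z, ⟨hz, hRz⟩, rfl⟩
  rcases hRx0.lt_or_eq with hneg0 | hzero
  · -- the interior case
    have hev : ∀ᶠ k in atTop, R (x (φ k)) < 0 := lR.eventually_lt_const hneg0
    have hP0 : P0 = ⟪x0, P0⟫ • x0 := tendsto_nhds_unique_of_eventuallyEq lP (lxP.smul lx)
      (hev.mono fun k hk => (hneg _ hk).1)
    have hP0' : 0 ≤ ⟪x0, P0⟫ := ge_of_tendsto lxP (hev.mono fun k hk => (hneg _ hk).2.1)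
    have ha0 : ‖a0‖ = 1 := tendsto_nhds_unique_of_eventuallyEq la.norm tendsto_const_nhds
      (hev.mono fun k hk => (hneg _ hk).2.2.1)
    have hb0 : ‖b0‖ = 1 := tendsto_nhds_unique_of_eventuallyEq lb.norm tendsto_const_nhds
      (hev.mono fun k hk => (hneg _ hk).2.2.2.1)
    have hab0 : ⟪a0, b0⟫ = 0 := tendsto_nhds_unique_of_eventuallyEq (la.inner lb)
      tendsto_const_nhds (hev.mono fun k hk => (hneg _ hk).2.2.2.2.1)
    have hxa0 : ⟪x0, a0⟫ = 0 := tendsto_nhds_unique_of_eventuallyEq (lx.inner la)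
      tendsto_const_nhds (hev.mono fun k hk => (hneg _ hk).2.2.2.2.2.1)
    have hxb0 : ⟪x0, b0⟫ = 0 := tendsto_nhds_unique_of_eventuallyEq (lx.inner lb)
      tendsto_const_nhds (hev.mono fun k hk => (hneg _ hk).2.2.2.2.2.2.1)
    -- the quadratic function
    have hsq : ∀ (p q y : E), ‖y‖ = 1 → ⟪q, y⟫ ^ 2 ≤ 2 * ⟪p, y⟫ ^ 2 + 2 * ‖p - q‖ ^ 2 := by
      intro p q y hy
      have h1 : ⟪q, y⟫ = ⟪p, y⟫ - ⟪p - q, y⟫ := by rw [inner_sub_left]; ring
      have h2 : ⟪p - q, y⟫ ^ 2 ≤ ‖p - q‖ ^ 2 := by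
        rw [← sq_abs]
        have := abs_real_inner_le_norm (p - q) y
        rw [hy, mul_one] at this
        exact pow_le_pow_left₀ (abs_nonneg _) this 2
      rw [h1]
      nlinarith [sq_nonneg (⟪p, y⟫ + ⟪p - q, y⟫)]
    have hsq2 : ∀ k, ∀ (p q : E), ∑ y ∈ T k, wt (T k) (l k) (x k) y * ⟪p, y⟫ ^ 2 ≤ 1 / l k →
        ∑ y ∈ T k, wt (T k) (l k) (x k) y * ⟪q, y⟫ ^ 2 ≤
          2 * (1 / ((k:ℝ) + 1)) + 2 * ‖p - q‖ ^ 2 := by
      intro k p q h
      have h1 : 1 / l k ≤ 1 / ((k:ℝ) + 1) := by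
        have h4 : (0:ℝ) < (k:ℝ) + 1 := by positivity
        refine one_div_le_one_div_of_le h4 ?_
        rw [hldef]
        exact le_mul_of_one_le_right h4.le (hTc k)
      calc ∑ y ∈ T k, wt (T k) (l k) (x k) y * ⟪q, y⟫ ^ 2 ≤
          ∑ y ∈ T k, (2 * (wt (T k) (l k) (x k) y * ⟪p, y⟫ ^ 2) +
            wt (T k) (l k) (x k) y * (2 * ‖p - q‖ ^ 2)) := by
            refine Finset.sum_le_sum fun y hy => ?_
            have h2 := mul_le_mul_of_nonneg_left (hsq p q y (hY1 y (hTY k y hy)))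
              (wt_pos (l := l k) (x := x k) (hTne k) y).le
            linarith
        _ = 2 * (∑ y ∈ T k, wt (T k) (l k) (x k) y * ⟪p, y⟫ ^ 2) + 2 * ‖p - q‖ ^ 2 := by
            rw [Finset.sum_add_distrib, ← Finset.mul_sum, ← Finset.sum_mul, sum_wt (hTne k),
              one_mul]
        _ ≤ _ := by linarith
    set q : ℕ → ℝ := fun k => ∑ y ∈ T k, wt (T k) (l k) (x k) y * qd a0 b0 y with hqdef
    have hq : ∀ k, (P k, q k) ∈ convexHull ℝ ((fun y => (y, qd a0 b0 y)) '' Y) := by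
      intro k
      have h1 : (P k, q k) = ∑ y ∈ T k, wt (T k) (l k) (x k) y • ((y, qd a0 b0 y) : E × ℝ) := by
        refine Prod.ext ?_ ?_
        · rw [Prod.fst_sum]
          rfl
        · rw [Prod.snd_sum]
          rfl
      rw [h1]
      exact (convex_convexHull ℝ _).sum_mem (fun y _ => (wt_pos (hTne k) y).le)
        (sum_wt (hTne k)) fun y hy => subset_convexHull ℝ _ ⟨y, hTY k y hy, rfl⟩
    have lq : Tendsto (fun k => q (φ k)) atTop (𝓝 0) := by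
      have h0 : ∀ k, 0 ≤ q k := fun k => Finset.sum_nonneg fun y _ =>
        mul_nonneg (wt_pos (hTne k) y).le (by unfold qd; positivity)
      have h1 : Tendsto (fun k => (2 * (1 / ((φ k : ℝ) + 1)) + 2 * ‖a (φ k) - a0‖ ^ 2) +
          (2 * (1 / ((φ k : ℝ) + 1)) + 2 * ‖b (φ k) - b0‖ ^ 2)) atTop
          (𝓝 ((2 * 0 + 2 * ‖a0 - a0‖ ^ 2) + (2 * 0 + 2 * ‖b0 - b0‖ ^ 2))) :=
        ((le.const_mul 2).add (((la.sub tendsto_const_nhds).norm.pow 2).const_mul 2)).add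
          ((le.const_mul 2).add (((lb.sub tendsto_const_nhds).norm.pow 2).const_mul 2))
      simp only [sub_self, norm_zero, mul_zero, ne_eq, OfNat.ofNat_ne_zero, not_false_eq_true,
        zero_pow, add_zero] at h1
      refine tendsto_of_tendsto_of_tendsto_of_le_of_le' tendsto_const_nhds h1
        (Eventually.of_forall fun k => h0 _) (hev.mono fun k hk => ?_)
      obtain ⟨-, -, -, -, -, -, -, h2, h3⟩ := hneg _ hk
      have h4 := hsq2 _ _ a0 h2
      have h5 := hsq2 _ _ b0 h3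
      have h6 : q (φ k) = ∑ y ∈ T (φ k), wt (T (φ k)) (l (φ k)) (x (φ k)) y * ⟪a0, y⟫ ^ 2 +
          ∑ y ∈ T (φ k), wt (T (φ k)) (l (φ k)) (x (φ k)) y * ⟪b0, y⟫ ^ 2 := by
        rw [← Finset.sum_add_distrib]
        exact Finset.sum_congr rfl fun y _ => by unfold qd; ring
      rw [h6]
      exact add_le_add h4 h5
    have hcl : IsClosed (convexHull ℝ ((fun y => (y, qd a0 b0 y)) '' Y)) := by
      refine (isCompact_convexHull (hY.image ?_)).isClosed
      unfold qd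
      fun_prop
    have hPq : (P0, (0:ℝ)) ∈ convexHull ℝ ((fun y => (y, qd a0 b0 y)) '' Y) :=
      hcl.mem_of_tendsto (lP.prodMk_nhds lq) (Eventually.of_forall fun k => hq _)
    exact ⟨x0, hx0, case_interior hR hreg hτ0 hτ1 hext hx0 hneg0 ha0 hb0 hxa0 hxb0 hab0 hPq
      hmax0 hP0 hP0'⟩
  · -- the boundary case
    exfalso
    have hPY0 : P0 ∈ convexHull ℝ Y :=
      (isCompact_convexHull hY).isClosed.mem_of_tendsto lP (Eventually.of_forall fun k => hPY _)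
    have ltg : Tendsto (fun k => ⟪P (φ k), tg R (x (φ k))⟫) atTop (𝓝 ⟪P0, tg R x0⟫) :=
      lP.inner (((tg_cont hR).tendsto x0).comp lx)
    exact case_boundary hR hreg hτ0 hτ1 hext hx0 hzero hPY0 hmax0
      (le_of_tendsto' ltg fun k => htg _)

end Pool.Agent.H22.EQ
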