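import Mathlib

/-! The convex hull of a compact set of a finite-dimensional space is compact. -/

set_option autoImplicit false

open Set Module

namespace Pool.Agent.H22.EQ

theorem sum_emb {ι : Type*} [Fintype ι] {N : ℕ} (e : ι ↪ Fin N) {G : Type*} [AddCommMonoid G]
    (g : Fin N → G) (hg : ∀ j, (¬ ∃ i, e i = j) → g j = 0) : ∑ j, g j = ∑ i, g (e i) := by
  classical
  symm
  rw [← Finset.sum_map (s := Finset.univ) (e := e) (f := g)]
  refine Finset.sum_subset (Finset.subset_univ _) fun j _ hj => hg j fun ⟨i, hi⟩ => hj ?_
  rw [Finset.mem_map]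
  exact ⟨i, Finset.mem_univ i, hi⟩

variable {F : Type*} [NormedAddCommGroup F] [NormedSpace ℝ F] [FiniteDimensional ℝ F]

theorem isCompact_convexHull {K : Set F} (hK : IsCompact K) : IsCompact (convexHull ℝ K) := by
  classical
  rcases K.eq_empty_or_nonempty with rfl | ⟨z0, hz0⟩
  · simp
  set N := finrank ℝ F + 1 with hN
  set T : Set ((Fin N → ℝ) × (Fin N → F)) := stdSimplex ℝ (Fin N) ×ˢ (Set.pi univ fun _ => K)
    with hT
  have hTc : IsCompact T := (isCompact_stdSimplex ℝ (Fin N)).prod (isCompact_univ_pi fun _ => hK)
  set f : (Fin N → ℝ) × (Fin N → F) → F := fun p => ∑ i, p.1 i • p.2 i with hf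
  have hfc : Continuous f := by
    simp only [hf]
    fun_prop
  have himg : f '' T = convexHull ℝ K := by
    apply Subset.antisymm
    · rintro _ ⟨⟨w, z⟩, ⟨hw, hz⟩, rfl⟩
      exact (convex_convexHull ℝ K).sum_mem (fun i _ => hw.1 i) hw.2
        fun i _ => subset_convexHull ℝ K (hz i (mem_univ i))
    · intro x hx
      obtain ⟨ι, hι, z, w, hzK, haff, hw0, hw1, hx'⟩ := eq_pos_convex_span_of_mem_convexHull hx
      have hcard : Fintype.card ι ≤ N := by
        refine haff.card_le_finrank_succ.trans ?_
        exact Nat.succ_le_succ (Submodule.finrank_le _)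
      obtain ⟨e⟩ : Nonempty (ι ↪ Fin N) :=
        Function.Embedding.nonempty_of_card_le (by simpa using hcard)
      refine ⟨(Function.extend e w 0, Function.extend e z fun _ => z0), ⟨⟨fun j => ?_, ?_⟩, ?_⟩, ?_⟩
      · by_cases hj : ∃ i, e i = j
        · obtain ⟨i, rfl⟩ := hj
          show 0 ≤ Function.extend e w 0 (e i)
          rw [e.injective.extend_apply]
          exact (hw0 i).le
        · show 0 ≤ Function.extend e w 0 j
          rw [Function.extend_apply' _ _ _ hj]
          rfl
      · show ∑ j, Function.extend e w 0 j = 1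
        rw [sum_emb e _ fun j hj => by rw [Function.extend_apply' _ _ _ hj]; rfl]
        simp only [e.injective.extend_apply]
        exact hw1
      · intro j _
        show Function.extend e z (fun _ => z0) j ∈ K
        by_cases hj : ∃ i, e i = j
        · obtain ⟨i, rfl⟩ := hj
          rw [e.injective.extend_apply]
          exact hzK ⟨i, rfl⟩
        · rw [Function.extend_apply' _ _ _ hj]
          exact hz0
      · show ∑ j, Function.extend e w 0 j • Function.extend e z (fun _ => z0) j = x
        rw [sum_emb e _ fun j hj => by rw [Function.extend_apply' _ _ _ hj]; simp]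
        simp only [e.injective.extend_apply]
        exact hx'
  rw [← himg]
  exact hTc.image hfc

end Pool.Agent.H22.EQ
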