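import Pool.Agent.H22.EQ.Gibbs

/-! Touching balls from outside, and the contact points of inscribed caps. -/

set_option autoImplicit false

open Set Filter Metric
open scoped Topology ContDiff RealInnerProductSpace Gradient

noncomputable section

namespace Pool.Agent.H22.EQ

variable {E : Type*} [NormedAddCommGroup E] [InnerProductSpace ℝ E] [FiniteDimensional ℝ E]

/-- the gradient of the restriction of `R` to the sphere -/
def tg (R : E → ℝ) (x : E) : E := ∇ R x - ⟪∇ R x, x⟫ • x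

/-- the unit normal -/
def nu (R : E → ℝ) (x : E) : E := ‖tg R x‖⁻¹ • tg R x

/-- the point at distance `τ` outside -/
def pt (R : E → ℝ) (τ : ℝ) (z : E) : E := Real.cos τ • z + Real.sin τ • nu R z

variable {R : E → ℝ}

theorem tg_orth {x : E} (hx : ‖x‖ = 1) : ⟪tg R x, x⟫ = 0 := by
  unfold tg
  rw [inner_sub_left, inner_smul_left, real_inner_self_eq_norm_sq, hx]
  simp

theorem fderiv_eq_inner (hR : ContDiff ℝ ∞ R) (x v : E) : fderiv ℝ R x v = ⟪∇ R x, v⟫ := by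
  have h := ((hR.differentiable (by simp)) x).hasGradientAt
  rw [hasGradientAt_iff_hasFDerivAt] at h
  rw [h.fderiv]
  rfl

theorem fderiv_eq_tg (hR : ContDiff ℝ ∞ R) {x v : E} (hv : ⟪x, v⟫ = 0) :
    fderiv ℝ R x v = ⟪tg R x, v⟫ := by
  rw [fderiv_eq_inner hR]
  unfold tg
  rw [inner_sub_left, inner_smul_left, hv]
  simp

theorem grad_cont (hR : ContDiff ℝ ∞ R) : Continuous (∇ R) := by
  have h : ContDiff ℝ ∞ (∇ R) := by
    unfold gradient
    exact (InnerProductSpace.toDual ℝ E).symm.contDiff.comp (hR.fderiv_right (m := ∞) (by simp))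
  exact h.continuous

theorem tg_cont (hR : ContDiff ℝ ∞ R) : Continuous (tg R) := by
  unfold tg
  have h := grad_cont hR
  fun_prop

theorem tg_ne (hR : ContDiff ℝ ∞ R)
    (hreg : ∀ x, ‖x‖ = 1 → R x = 0 → ∃ v, ⟪x, v⟫ = 0 ∧ fderiv ℝ R x v ≠ 0) {x : E}
    (hx : ‖x‖ = 1) (hx0 : R x = 0) : tg R x ≠ 0 := by
  obtain ⟨v, hv, hv'⟩ := hreg x hx hx0
  intro h
  rw [fderiv_eq_tg hR hv, h, inner_zero_left] at hv'
  exact hv' rfl

theorem nu_norm {x : E} (h : tg R x ≠ 0) : ‖nu R x‖ = 1 := by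
  unfold nu
  rw [norm_smul, norm_inv, norm_norm, inv_mul_cancel₀ (norm_ne_zero_iff.2 h)]

theorem nu_orth {x : E} (hx : ‖x‖ = 1) : ⟪nu R x, x⟫ = 0 := by
  unfold nu
  rw [inner_smul_left, tg_orth hx, mul_zero]

theorem pt_norm {x : E} (hx : ‖x‖ = 1) (h : tg R x ≠ 0) (τ : ℝ) : ‖pt R τ x‖ = 1 :=
  gc_norm hx (nu_norm h) (by rw [real_inner_comm]; exact nu_orth hx) τ

/-- Taylor's formula -/
theorem taylor (hR : ContDiff ℝ ∞ R) : ∃ K : ℝ, 0 ≤ K ∧ ∀ x z : E, ‖x‖ ≤ 1 → ‖z‖ ≤ 1 →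
    |R x - R z - fderiv ℝ R z (x - z)| ≤ K * ‖x - z‖ ^ 2 := by
  have h1 : ContDiff ℝ ∞ (fderiv ℝ R) := hR.fderiv_right (m := ∞) (by simp)
  have h2 : Continuous fun p : E => ‖fderiv ℝ (fderiv ℝ R) p‖ :=
    (h1.continuous_fderiv (by simp)).norm
  obtain ⟨K, hK'⟩ := (isCompact_closedBall (0:E) 1).exists_bound_of_continuousOn h2.continuousOn
  have hK : ∀ p ∈ closedBall (0:E) 1, ‖fderiv ℝ (fderiv ℝ R) p‖ ≤ K := fun p hp => by
    exact (le_abs_self _).trans (hK' p hp)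
  have hK0 : 0 ≤ K := (norm_nonneg _).trans (hK' 0 (by simp))
  refine ⟨K, hK0, fun x z hx hz => ?_⟩
  have hx' : x ∈ closedBall (0:E) 1 := by simpa using hx
  have hz' : z ∈ closedBall (0:E) 1 := by simpa using hz
  have hc : Convex ℝ (closedBall (0:E) 1) := convex_closedBall 0 1
  have hseg : segment ℝ z x ⊆ closedBall (0:E) 1 := hc.segment_subset hz' hx'
  have h3 : ∀ p ∈ segment ℝ z x, ‖fderiv ℝ R p - fderiv ℝ R z‖ ≤ K * ‖x - z‖ := by
    intro p hp
    have h4 := hc.norm_image_sub_le_of_norm_fderiv_le (𝕜 := ℝ) (f := fderiv ℝ R) (C := K)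
      (fun q _ => (h1.differentiable (by simp)) q) hK hz' (hseg hp)
    refine h4.trans (mul_le_mul_of_nonneg_left ?_ hK0)
    obtain ⟨t, ht, rfl⟩ := (segment_eq_image' ℝ z x ▸ hp : p ∈ (fun θ : ℝ => z + θ • (x - z)) ''
      Icc (0:ℝ) 1)
    have : z + t • (x - z) - z = t • (x - z) := by abel
    rw [this, norm_smul, Real.norm_eq_abs, abs_of_nonneg ht.1]
    exact mul_le_of_le_one_left (norm_nonneg _) ht.2
  have h5 := (convex_segment z x).norm_image_sub_le_of_norm_fderiv_le' (𝕜 := ℝ) (f := R)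
    (C := K * ‖x - z‖) (φ := fderiv ℝ R z)
    (fun q _ => (hR.differentiable (by simp)) q) h3 (left_mem_segment ℝ z x)
    (right_mem_segment ℝ z x)
  rw [Real.norm_eq_abs] at h5
  calc _ ≤ K * ‖x - z‖ * ‖x - z‖ := h5
    _ = _ := by ring

/-- **Balls which touch from outside.** -/
theorem ext (hR : ContDiff ℝ ∞ R)
    (hreg : ∀ x, ‖x‖ = 1 → R x = 0 → ∃ v, ⟪x, v⟫ = 0 ∧ fderiv ℝ R x v ≠ 0)
    (hne : ∃ z : E, ‖z‖ = 1 ∧ R z = 0) :
    ∃ τ : ℝ, 0 < τ ∧ τ < Real.pi / 2 ∧ ∀ x z : E, ‖x‖ = 1 → ‖z‖ = 1 → R x ≤ 0 → R z = 0 →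
      ⟪x, pt R τ z⟫ ≤ Real.cos τ ∧ (Real.cos τ ≤ ⟪x, pt R τ z⟫ → x = z) := by
  obtain ⟨K, hK0, hK⟩ := taylor hR
  have hM : IsCompact {z : E | ‖z‖ = 1 ∧ R z = 0} := by
    refine (isCompact_sphere (0:E) 1).of_isClosed_subset ?_ fun z hz => by simpa using hz.1
    exact (isClosed_eq continuous_norm continuous_const).inter
      (isClosed_eq hR.continuous continuous_const)
  obtain ⟨z0, hz0, hmin⟩ := hM.exists_isMinOn hne (f := fun z => ‖tg R z‖)
    (tg_cont hR).norm.continuousOn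
  set m := ‖tg R z0‖ with hm
  have hm0 : 0 < m := norm_pos_iff.2 (tg_ne hR hreg hz0.1 hz0.2)
  obtain ⟨K', hK'⟩ := hM.exists_bound_of_continuousOn (grad_cont hR).continuousOn
  have hK'0 : 0 ≤ K' := (norm_nonneg _).trans (hK' z0 hz0)
  set C := (K + K') / m with hC
  have hC0 : 0 ≤ C := by positivity
  set τ := Real.arctan (1 / (2 * C + 2)) with hτ
  have hτ0 : 0 < τ := by
    rw [hτ, ← Real.arctan_zero]
    exact Real.arctan_strictMono (by positivity)
  have hτ1 : τ < Real.pi / 2 := Real.arctan_lt_pi_div_two _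
  have hcos : 0 < Real.cos τ := Real.cos_arctan_pos _
  have hsin : 0 < Real.sin τ := Real.sin_pos_of_pos_of_lt_pi hτ0 (by linarith [Real.pi_pos])
  have htan : Real.sin τ * (2 * C + 2) = Real.cos τ := by
    have h := Real.tan_arctan (1 / (2 * C + 2))
    rw [← hτ, Real.tan_eq_sin_div_cos] at h
    have h2 : 0 < 2 * C + 2 := by positivity
    rw [div_eq_div_iff hcos.ne' h2.ne'] at h
    linarith
  refine ⟨τ, hτ0, hτ1, fun x z hx hz hRx hRz => ?_⟩
  -- the angle of `x - z` with the normal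
  have hxz : ⟪x, z⟫ = 1 - ‖x - z‖ ^ 2 / 2 := by
    have := norm_sub_sq_real x z
    rw [hx, hz] at this
    linarith
  have h1 : ⟪tg R z, x⟫ ≤ (K + K') * ‖x - z‖ ^ 2 := by
    have h2 := (abs_le.1 (hK x z hx.le hz.le)).1
    rw [fderiv_eq_inner hR, hRz] at h2
    have h3 : ⟪tg R z, x⟫ = ⟪∇ R z, x - z⟫ + ⟪∇ R z, z⟫ * (‖x - z‖ ^ 2 / 2) := by
      unfold tg
      rw [inner_sub_left, inner_smul_left, inner_sub_right, real_inner_comm x z, hxz]
      simp only [conj_trivial]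
      ring
    have h4 : ⟪∇ R z, z⟫ ≤ K' := by
      calc ⟪∇ R z, z⟫ ≤ ‖∇ R z‖ * ‖z‖ := real_inner_le_norm _ _
        _ ≤ K' := by rw [hz, mul_one]; exact hK' z ⟨hz, hRz⟩
    have h5 : 0 ≤ ‖x - z‖ ^ 2 := by positivity
    have h6 : ⟪∇ R z, z⟫ * (‖x - z‖ ^ 2 / 2) ≤ K' * (‖x - z‖ ^ 2 / 2) :=
      mul_le_mul_of_nonneg_right h4 (by positivity)
    have h7 : 0 ≤ K' * (‖x - z‖ ^ 2 / 2) := by positivity
    rw [h3]
    nlinarith
  have h2 : ⟪x, nu R z⟫ ≤ C * ‖x - z‖ ^ 2 := by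
    have h5 : 0 ≤ ‖x - z‖ ^ 2 := by positivity
    have hmz : m ≤ ‖tg R z‖ := isMinOn_iff.1 hmin z ⟨hz, hRz⟩
    have hmz0 : 0 < ‖tg R z‖ := hm0.trans_le hmz
    have h6 : ⟪x, nu R z⟫ = ⟪tg R z, x⟫ / ‖tg R z‖ := by
      unfold nu
      rw [inner_smul_right, real_inner_comm]
      field_simp
    rw [h6, div_le_iff₀ hmz0]
    calc ⟪tg R z, x⟫ ≤ (K + K') * ‖x - z‖ ^ 2 := h1
      _ = C * ‖x - z‖ ^ 2 * m := by rw [hC]; field_simp
      _ ≤ C * ‖x - z‖ ^ 2 * ‖tg R z‖ := mul_le_mul_of_nonneg_left hmz (by positivity)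
  have h3 : ⟪x, pt R τ z⟫ ≤ Real.cos τ - Real.sin τ * ‖x - z‖ ^ 2 := by
    unfold pt
    rw [inner_add_right, inner_smul_right, inner_smul_right, hxz, ← htan]
    have h5 : 0 ≤ ‖x - z‖ ^ 2 := by positivity
    have h6 : Real.sin τ * ⟪x, nu R z⟫ ≤ Real.sin τ * (C * ‖x - z‖ ^ 2) :=
      mul_le_mul_of_nonneg_left h2 hsin.le
    nlinarith
  have h5 : 0 ≤ ‖x - z‖ ^ 2 := by positivity
  have h6 : 0 ≤ Real.sin τ * ‖x - z‖ ^ 2 := by positivity
  refine ⟨by linarith, fun h => ?_⟩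
  have h7 : Real.sin τ * ‖x - z‖ ^ 2 ≤ 0 := by linarith
  have h8 : ‖x - z‖ ^ 2 = 0 := by
    by_contra h9
    have : 0 < Real.sin τ * ‖x - z‖ ^ 2 := mul_pos hsin (lt_of_le_of_ne h5 (Ne.symm h9))
    linarith
  have h9 : ‖x - z‖ = 0 := by simpa using h8
  exact sub_eq_zero.1 (norm_eq_zero.1 h9)

omit [FiniteDimensional ℝ E] in
/-- components orthogonal to a unit vector -/
theorem inner_ge {a b c : E} (ha : ‖a‖ = 1) (hb : ‖b‖ = 1) (hc : ‖c‖ = 1) (hbc : ⟪c, b⟫ = 0)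
    {θ : ℝ} (h0 : 0 ≤ θ) (h1 : θ ≤ Real.pi) (hab : ⟪a, b⟫ = Real.cos θ) :
    -Real.sin θ ≤ ⟪a, c⟫ := by
  have h2 : ⟪a - Real.cos θ • b, c⟫ = ⟪a, c⟫ := by
    rw [inner_sub_left, inner_smul_left, real_inner_comm c b, hbc]
    simp
  have h3 : ‖a - Real.cos θ • b‖ ^ 2 = Real.sin θ ^ 2 := by
    rw [norm_sub_sq_real, norm_smul, inner_smul_right, hab, ha, hb]
    simp only [mul_one, Real.norm_eq_abs, sq_abs, one_pow]
    have := Real.sin_sq_add_cos_sq θ
    nlinarith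
  have hs := Real.sin_nonneg_of_nonneg_of_le_pi h0 h1
  have h4 : ‖a - Real.cos θ • b‖ = Real.sin θ := by
    rw [← abs_of_nonneg (norm_nonneg (a - Real.cos θ • b)), ← abs_of_nonneg hs]
    exact (sq_eq_sq_iff_abs_eq_abs _ _).1 h3
  have h5 := neg_le_of_abs_le (abs_real_inner_le_norm (a - Real.cos θ • b) c)
  rw [h2, h4, hc, mul_one] at h5
  exact h5

theorem pt_ge {x z : E} {τ θ : ℝ} (hx : ‖x‖ = 1) (hz : ‖z‖ = 1) (ht : tg R z ≠ 0)
    (hτ0 : 0 < τ) (hτ1 : τ < Real.pi / 2) (h0 : 0 ≤ θ) (h1 : θ ≤ Real.pi)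
    (h : ⟪x, z⟫ = Real.cos θ) : Real.cos (θ + τ) ≤ ⟪x, pt R τ z⟫ := by
  have h2 := inner_ge hx hz (nu_norm ht) (nu_orth hz) h0 h1 h
  have hs : 0 ≤ Real.sin τ := Real.sin_nonneg_of_nonneg_of_le_pi hτ0.le (by linarith [Real.pi_pos])
  unfold pt
  rw [inner_add_right, inner_smul_right, inner_smul_right, h, Real.cos_add]
  have := mul_le_mul_of_nonneg_left h2 hs
  linarith

/-- **Contact points.** -/
theorem contact (hR : ContDiff ℝ ∞ R)
    (hreg : ∀ x, ‖x‖ = 1 → R x = 0 → ∃ v, ⟪x, v⟫ = 0 ∧ fderiv ℝ R x v ≠ 0) {τ : ℝ} (hτ0 : 0 < τ)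
    (hτ1 : τ < Real.pi / 2)
    (hext : ∀ x z : E, ‖x‖ = 1 → ‖z‖ = 1 → R x ≤ 0 → R z = 0 →
      ⟪x, pt R τ z⟫ ≤ Real.cos τ ∧ (Real.cos τ ≤ ⟪x, pt R τ z⟫ → x = z))
    {x : E} (hx : ‖x‖ = 1) (hRx : R x < 0) {μ : ℝ} (hμ0 : 0 ≤ μ)
    (hmax : ∀ z, ‖z‖ = 1 → R z = 0 → ⟪x, pt R τ z⟫ ≤ μ) {z : E} (hz : ‖z‖ = 1) (hRz : R z = 0)
    (hxz : ⟪x, pt R τ z⟫ = μ) :
    τ < Real.arccos μ ∧ Real.arccos μ ≤ Real.pi / 2 ∧ μ = Real.cos (Real.arccos μ) ∧
      z = (Real.sin (Real.arccos μ - τ) / Real.sin (Real.arccos μ)) • pt R τ z +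
        (Real.sin τ / Real.sin (Real.arccos μ)) • x ∧
      ⟪x, z⟫ = Real.cos (Real.arccos μ - τ) ∧
      ∀ z', ‖z'‖ = 1 → R z' = 0 → ⟪x, z'⟫ ≤ Real.cos (Real.arccos μ - τ) := by
  have hpi := Real.pi_pos
  have hcτ : Real.cos τ < 1 := by
    rw [← Real.cos_zero]
    exact Real.cos_lt_cos_of_nonneg_of_le_pi_div_two le_rfl hτ1.le hτ0
  set D := Real.arccos μ with hD
  have hμτ : μ ≤ Real.cos τ := hxz ▸ (hext x z hx hz hRx.le hRz).1
  have hμ1 : μ ≤ 1 := hμτ.trans hcτ.le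
  have hcosD : Real.cos D = μ := Real.cos_arccos (by linarith) hμ1
  have hDτ : τ ≤ D := by
    have h := Real.arccos_le_arccos hμτ
    rwa [Real.arccos_cos hτ0.le (by linarith)] at h
  have hD0 : 0 < D := hτ0.trans_le hDτ
  have hDpi : D ≤ Real.pi / 2 := Real.arccos_le_pi_div_two.2 hμ0
  have hsD : 0 < Real.sin D := Real.sin_pos_of_pos_of_lt_pi hD0 (by linarith)
  set y := pt R τ z with hy
  have hyn : ‖y‖ = 1 := pt_norm hz (tg_ne hR hreg hz hRz) τ
  set e : E := (Real.sin D)⁻¹ • (y - Real.cos D • x) with he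
  have hxe : ⟪x, e⟫ = 0 := by
    rw [he, inner_smul_right, inner_sub_right, inner_smul_right, real_inner_self_eq_norm_sq, hx,
      hxz, hcosD]
    ring
  have hye : y = gc x e D := by
    unfold gc
    rw [he, smul_smul, mul_inv_cancel₀ hsD.ne', one_smul]
    abel
  have hen : ‖e‖ = 1 := by
    have h1 : ‖y - Real.cos D • x‖ ^ 2 = Real.sin D ^ 2 := by
      rw [norm_sub_sq_real, norm_smul, inner_smul_right, real_inner_comm, hxz, hyn, hx, hcosD]
      simp only [mul_one, Real.norm_eq_abs, sq_abs, one_pow]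
      have := Real.sin_sq_add_cos_sq D
      rw [hcosD] at this
      nlinarith
    have h2 : ‖y - Real.cos D • x‖ = Real.sin D := by
      rw [← abs_of_nonneg (norm_nonneg (y - Real.cos D • x)), ← abs_of_nonneg hsD.le]
      exact (sq_eq_sq_iff_abs_eq_abs _ _).1 h1
    rw [he, norm_smul, h2, norm_inv, Real.norm_eq_abs, abs_of_pos hsD, inv_mul_cancel₀ hsD.ne']
  have hRy : 0 < R y := by
    by_contra hcon
    push Not at hcon
    have h1 := (hext y z hyn hz hcon hRz).1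
    rw [← hy, real_inner_self_eq_norm_sq, hyn] at h1
    linarith
  -- the crossing point
  have hcont : ContinuousOn (fun θ => R (gc x e θ)) (Icc 0 D) :=
    (hR.continuous.comp (gc_smooth x e).continuous).continuousOn
  obtain ⟨θ, hθ, hRθ⟩ := intermediate_value_Icc hD0.le hcont
    (show (0:ℝ) ∈ Icc (R (gc x e 0)) (R (gc x e D)) by
      rw [gc_zero, ← hye]; exact ⟨hRx.le, hRy.le⟩)
  have hRθ' : R (gc x e θ) = 0 := hRθ
  have hθ0 : 0 < θ := by
    rcases hθ.1.eq_or_lt with h | h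
    · rw [← h, gc_zero] at hRθ'
      linarith
    · exact h
  set m := gc x e θ with hm
  have hmn : ‖m‖ = 1 := gc_norm hx hen hxe θ
  have hxm : ⟪x, m⟫ = Real.cos θ := by
    rw [hm]; unfold gc
    rw [inner_add_right, inner_smul_right, inner_smul_right, hxe, real_inner_self_eq_norm_sq, hx]
    ring
  have hmy : ⟪m, y⟫ = Real.cos (D - θ) := by
    rw [hye, hm]; unfold gc
    rw [inner_add_left, inner_add_right, inner_add_right]
    simp only [inner_smul_left, inner_smul_right, hxe, real_inner_comm x e,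
      real_inner_self_eq_norm_sq, hx, hen, conj_trivial]
    rw [Real.cos_sub]
    ring
  have h1 := hext m z hmn hz hRθ'.le hRz
  rw [← hy, hmy] at h1
  have h2 : τ ≤ D - θ := by
    by_contra hcon
    push Not at hcon
    have := Real.cos_lt_cos_of_nonneg_of_le_pi (by linarith [hθ.2] : (0:ℝ) ≤ D - θ)
      (by linarith) hcon
    linarith [h1.1]
  have h3 : Real.cos (θ + τ) ≤ μ := (pt_ge hx hmn (tg_ne hR hreg hmn hRθ') hτ0 hτ1 hθ0.le
    (by linarith [hθ.2]) hxm).trans (hmax m hmn hRθ')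
  have h4 : D ≤ θ + τ := by
    by_contra hcon
    push Not at hcon
    have := Real.cos_lt_cos_of_nonneg_of_le_pi (by linarith : (0:ℝ) ≤ θ + τ) (by linarith) hcon
    linarith
  have h5 : θ = D - τ := by linarith
  have hmz : m = z := h1.2 (by rw [h5]; ring_nf; exact le_rfl)
  have hsθ : Real.cos θ * Real.sin D - Real.sin θ * Real.cos D = Real.sin τ := by
    have : τ = D - θ := by linarith
    rw [this, Real.sin_sub]
    ring
  refine ⟨by linarith, hDpi, hcosD.symm, ?_, ?_, fun z' hz' hRz' => ?_⟩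
  · have e1 : Real.sin θ / Real.sin D * Real.sin D = Real.sin θ := by field_simp
    have e2 : Real.cos θ = Real.sin θ / Real.sin D * Real.cos D + Real.sin τ / Real.sin D := by
      rw [← hsθ]; field_simp; ring
    have e3 : z = gc x e θ := by rw [← hmz]
    have e4 : gc x e θ = (Real.sin θ / Real.sin D) • gc x e D + (Real.sin τ / Real.sin D) • x := by
      clear_value e
      unfold gc
      rw [smul_add, smul_smul, smul_smul, e1]
      nth_rewrite 1 [e2]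
      rw [add_smul]
      abel
    rw [← h5]
    calc z = gc x e θ := e3
      _ = _ := e4
      _ = _ := by rw [← hye]
  · rw [← h5, ← hmz]
    exact hxm
  · by_contra hcon
    push Not at hcon
    rw [← h5] at hcon
    have hc1 : ⟪x, z'⟫ ≤ 1 := by
      have := real_inner_le_norm x z'
      rwa [hx, hz', mul_one] at this
    have hc2 : -1 ≤ ⟪x, z'⟫ := by
      have := neg_le_of_abs_le (abs_real_inner_le_norm x z')
      rwa [hx, hz', mul_one] at this
    set θ' := Real.arccos ⟪x, z'⟫ with hθ'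
    have hcos' : ⟪x, z'⟫ = Real.cos θ' := (Real.cos_arccos hc2 hc1).symm
    have hθ'0 : 0 ≤ θ' := Real.arccos_nonneg _
    have hθ'1 : θ' < θ := by
      by_contra h6
      push Not at h6
      have := Real.cos_le_cos_of_nonneg_of_le_pi hθ0.le (Real.arccos_le_pi _) h6
      rw [← hθ', ← hcos'] at this
      linarith
    have h6 := pt_ge hx hz' (tg_ne hR hreg hz' hRz') hτ0 hτ1 hθ'0 (Real.arccos_le_pi _) hcos'
    have h7 := hmax z' hz' hRz'
    have h8 := Real.cos_lt_cos_of_nonneg_of_le_pi (by linarith : (0:ℝ) ≤ θ' + τ)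
      (by linarith : D ≤ Real.pi) (by linarith : θ' + τ < D)
    linarith

end Pool.Agent.H22.EQ
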