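import Pool.Agent.H22.EQ.Main

/-! Critical points of sums of exponentials of smooth functions. -/

set_option autoImplicit false

open Set Filter Metric Module
open scoped Topology ContDiff RealInnerProductSpace Gradient

noncomputable section

namespace Pool.Agent.H22.EQ

section gen

variable {E : Type*} [NormedAddCommGroup E] [InnerProductSpace ℝ E]

/-- the Hessian of the restriction to the sphere -/
def hs (f : E → ℝ) (x u v : E) : ℝ := fderiv ℝ (fderiv ℝ f) x u v - ⟪u, v⟫ * fderiv ℝ f x x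

/-- the Hessian in the direction `cos θ a + sin θ b` -/
def hq (f : E → ℝ) (x a b : E) (θ : ℝ) : ℝ :=
  Real.cos θ ^ 2 * hs f x a a + Real.cos θ * Real.sin θ * (hs f x a b + hs f x b a) +
    Real.sin θ ^ 2 * hs f x b b

theorem hs_eq_hq (f : E → ℝ) (x a b : E) (θ : ℝ) :
    hs f x (Real.cos θ • a + Real.sin θ • b) (Real.cos θ • a + Real.sin θ • b) = hq f x a b θ := by
  unfold hq hs
  simp only [map_add, map_smul, inner_add_left, inner_add_right, inner_smul_left, inner_smul_right,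
    _root_.add_apply, _root_.smul_apply, smul_eq_mul, conj_trivial]
  ring

theorem gc_hasDeriv (x u : E) (t : ℝ) : HasDerivAt (gc x u) (gc u (-x) t) t := by
  have h : HasDerivAt (gc x u) ((-Real.sin t) • x + (Real.cos t) • u) t :=
    ((Real.hasDerivAt_cos t).smul_const x).add ((Real.hasDerivAt_sin t).smul_const u)
  convert h using 1
  unfold gc
  rw [smul_neg, neg_smul]
  abel

theorem comp_gc_deriv {f : E → ℝ} (hf : ContDiff ℝ ∞ f) (x u : E) (t : ℝ) :
    HasDerivAt (fun t => f (gc x u t)) (fderiv ℝ f (gc x u t) (gc u (-x) t)) t :=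
  ((hf.differentiable (by simp)) _).hasFDerivAt.comp_hasDerivAt t (gc_hasDeriv x u t)

theorem comp_gc_deriv2 {f : E → ℝ} (hf : ContDiff ℝ ∞ f) {x u : E} (hu : ‖u‖ = 1) :
    HasDerivAt (fun t => fderiv ℝ f (gc x u t) (gc u (-x) t)) (hs f x u u) 0 := by
  have h1 : ContDiff ℝ ∞ (fderiv ℝ f) := hf.fderiv_right (m := ∞) (by simp)
  have h2 : HasDerivAt (fun t => fderiv ℝ f (gc x u t))
      (fderiv ℝ (fderiv ℝ f) (gc x u 0) (gc u (-x) 0)) 0 :=
    ((h1.differentiable (by simp)) _).hasFDerivAt.comp_hasDerivAt 0 (gc_hasDeriv x u 0)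
  have h3 := h2.clm_apply (gc_hasDeriv u (-x) 0)
  refine h3.congr_deriv ?_
  rw [gc_zero, gc_zero, gc_zero]
  unfold hs
  rw [real_inner_self_eq_norm_sq, hu, map_neg]
  ring

theorem comp_gc_second {f : E → ℝ} (hf : ContDiff ℝ ∞ f) {x u : E} (hu : ‖u‖ = 1) :
    deriv (deriv fun t => f (gc x u t)) 0 = hs f x u u := by
  have h : deriv (fun t => f (gc x u t)) = fun t => fderiv ℝ f (gc x u t) (gc u (-x) t) :=
    funext fun t => (comp_gc_deriv hf x u t).deriv
  rw [h]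
  exact (comp_gc_deriv2 hf hu).deriv

variable {T : Type*} {φ : T → E → ℝ} {I : Finset T} {l : ℝ} {x : E}

/-- the sum of the exponentials -/
def ZZ (φ : T → E → ℝ) (I : Finset T) (l : ℝ) (x : E) : ℝ := ∑ t ∈ I, Real.exp (l * φ t x)

/-- the weights -/
def ww (φ : T → E → ℝ) (I : Finset T) (l : ℝ) (x : E) (t : T) : ℝ :=
  Real.exp (l * φ t x) / ZZ φ I l x

omit [NormedAddCommGroup E] [InnerProductSpace ℝ E] in
theorem ZZ_pos (hI : I.Nonempty) : 0 < ZZ φ I l x :=
  Finset.sum_pos (fun _ _ => Real.exp_pos _) hI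

omit [NormedAddCommGroup E] [InnerProductSpace ℝ E] in
theorem ww_pos (hI : I.Nonempty) (t : T) : 0 < ww φ I l x t := div_pos (Real.exp_pos _) (ZZ_pos hI)

omit [NormedAddCommGroup E] [InnerProductSpace ℝ E] in
theorem sum_ww (hI : I.Nonempty) : ∑ t ∈ I, ww φ I l x t = 1 := by
  unfold ww
  rw [← Finset.sum_div]
  exact div_self (ZZ_pos hI).ne'

theorem ZZ_smooth (hφ : ∀ t, ContDiff ℝ ∞ (φ t)) (I : Finset T) (l : ℝ) :
    ContDiff ℝ ∞ (ZZ φ I l) := by
  unfold ZZ
  exact ContDiff.sum fun t _ => (contDiff_const.mul (hφ t)).exp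

theorem ZZ_fderiv (hφ : ∀ t, ContDiff ℝ ∞ (φ t)) (hI : I.Nonempty) (v : E) :
    fderiv ℝ (ZZ φ I l) x v = l * ZZ φ I l x * ∑ t ∈ I, ww φ I l x t * fderiv ℝ (φ t) x v := by
  have h : ∀ t ∈ I, HasFDerivAt (fun z : E => Real.exp (l * φ t z))
      (Real.exp (l * φ t x) • (l • fderiv ℝ (φ t) x)) x := fun t _ =>
    ((((hφ t).differentiable (by simp)) x).hasFDerivAt.const_mul l).exp
  have h3 : HasFDerivAt (ZZ φ I l) (∑ t ∈ I, Real.exp (l * φ t x) • (l • fderiv ℝ (φ t) x)) x :=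
    HasFDerivAt.fun_sum h
  rw [h3.fderiv, _root_.sum_apply, Finset.mul_sum]
  refine Finset.sum_congr rfl fun t _ => ?_
  have h := (ZZ_pos (φ := φ) (I := I) (l := l) (x := x) hI).ne'
  show Real.exp (l * φ t x) * (l * fderiv ℝ (φ t) x v) = _
  unfold ww
  field_simp

theorem ZZ_second {R : E → ℝ} (hR : ContDiff ℝ ∞ R) (hφ : ∀ t, ContDiff ℝ ∞ (φ t))
    (hI : I.Nonempty) {u : E} (hu : ‖u‖ = 1) (s : ℝ) :
    deriv (deriv fun t => ZZ φ I l (gc x u t) + s * R (gc x u t)) 0 =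
      l * ZZ φ I l x * ∑ t ∈ I, ww φ I l x t * (l * (fderiv ℝ (φ t) x u) ^ 2 + hs (φ t) x u u) +
        s * hs R x u u := by
  have h1 : ∀ τ : ℝ, HasDerivAt (fun τ => ZZ φ I l (gc x u τ) + s * R (gc x u τ))
      (∑ t ∈ I, Real.exp (l * φ t (gc x u τ)) * (l * fderiv ℝ (φ t) (gc x u τ) (gc u (-x) τ)) +
        s * fderiv ℝ R (gc x u τ) (gc u (-x) τ)) τ := by
    intro τ
    refine HasDerivAt.add ?_ ((comp_gc_deriv hR x u τ).const_mul s)
    unfold ZZ
    refine HasDerivAt.fun_sum fun t _ => ?_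
    exact ((comp_gc_deriv (hφ t) x u τ).const_mul l).exp
  have h2 : deriv (fun τ => ZZ φ I l (gc x u τ) + s * R (gc x u τ)) = fun τ =>
      ∑ t ∈ I, Real.exp (l * φ t (gc x u τ)) * (l * fderiv ℝ (φ t) (gc x u τ) (gc u (-x) τ)) +
        s * fderiv ℝ R (gc x u τ) (gc u (-x) τ) := funext fun τ => (h1 τ).deriv
  have h3 : HasDerivAt (fun τ =>
      ∑ t ∈ I, Real.exp (l * φ t (gc x u τ)) * (l * fderiv ℝ (φ t) (gc x u τ) (gc u (-x) τ)) +
        s * fderiv ℝ R (gc x u τ) (gc u (-x) τ))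
      (∑ t ∈ I, ((Real.exp (l * φ t (gc x u 0)) * (l * fderiv ℝ (φ t) (gc x u 0) (gc u (-x) 0))) *
        (l * fderiv ℝ (φ t) (gc x u 0) (gc u (-x) 0)) + Real.exp (l * φ t (gc x u 0)) *
          (l * hs (φ t) x u u)) + s * hs R x u u) 0 := by
    refine HasDerivAt.add ?_ ((comp_gc_deriv2 hR hu).const_mul s)
    refine HasDerivAt.fun_sum fun t _ => ?_
    exact ((comp_gc_deriv (hφ t) x u 0).const_mul l).exp.mul
      ((comp_gc_deriv2 (hφ t) hu).const_mul l)
  rw [h2, h3.deriv, gc_zero, gc_zero, Finset.mul_sum]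
  congr 1
  refine Finset.sum_congr rfl fun t _ => ?_
  have h := (ZZ_pos (φ := φ) (I := I) (l := l) (x := x) hI).ne'
  unfold ww
  field_simp

omit [NormedAddCommGroup E] [InnerProductSpace ℝ E] in
/-- the mean is almost the maximum -/
theorem gibbs2 (hl : 0 < l) {t' : T} (ht' : t' ∈ I) :
    φ t' x - I.card / l ≤ ∑ t ∈ I, ww φ I l x t * φ t x := by
  have hI : I.Nonempty := ⟨t', ht'⟩
  have h1 : ∀ t ∈ I, ww φ I l x t * (φ t' x - φ t x) ≤ 1 / l := by
    intro t _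
    rcases le_total (φ t' x) (φ t x) with h | h
    · have : ww φ I l x t * (φ t' x - φ t x) ≤ 0 :=
        mul_nonpos_of_nonneg_of_nonpos (ww_pos hI t).le (by linarith)
      exact this.trans (by positivity)
    · set a := l * (φ t' x - φ t x) with ha
      have ha0 : 0 ≤ a := mul_nonneg hl.le (by linarith)
      have hw : ww φ I l x t ≤ Real.exp (-a) := by
        unfold ww
        rw [div_le_iff₀ (ZZ_pos hI)]
        have h2 : Real.exp (l * φ t' x) ≤ ZZ φ I l x :=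
          Finset.single_le_sum (f := fun t => Real.exp (l * φ t x))
            (fun _ _ => (Real.exp_pos _).le) ht'
        calc Real.exp (l * φ t x) = Real.exp (-a) * Real.exp (l * φ t' x) := by
              rw [← Real.exp_add]; congr 1; rw [ha]; ring
          _ ≤ _ := mul_le_mul_of_nonneg_left h2 (Real.exp_pos _).le
      have h3 : Real.exp (-a) * a ≤ 1 := by
        have h4 : a ≤ Real.exp a := by linarith [Real.add_one_le_exp a]
        calc Real.exp (-a) * a ≤ Real.exp (-a) * Real.exp a :=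
              mul_le_mul_of_nonneg_left h4 (Real.exp_pos _).le
          _ = 1 := by rw [← Real.exp_add]; simp
      rw [le_div_iff₀ hl]
      calc ww φ I l x t * (φ t' x - φ t x) * l = ww φ I l x t * a := by rw [ha]; ring
        _ ≤ Real.exp (-a) * a := mul_le_mul_of_nonneg_right hw ha0
        _ ≤ 1 := h3
  have h2 := Finset.sum_le_sum h1
  rw [Finset.sum_const, nsmul_eq_mul] at h2
  have h3 : ∑ t ∈ I, ww φ I l x t * (φ t' x - φ t x) =
      φ t' x - ∑ t ∈ I, ww φ I l x t * φ t x := by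
    simp only [mul_sub]
    rw [Finset.sum_sub_distrib, ← Finset.sum_mul, sum_ww hI, one_mul]
  rw [h3, mul_one_div] at h2
  linarith

end gen

variable {E : Type} [NormedAddCommGroup E] [InnerProductSpace ℝ E]

/-- Critical points of the sums of exponentials -/
theorem approx2 {n : ℕ} [Fact (finrank ℝ E = n + 1)] [FiniteDimensional ℝ E]
    {R : E → ℝ} (hR : ContDiff ℝ ∞ R)
    (hreg : ∀ x, ‖x‖ = 1 → R x = 0 → ∃ v, ⟪x, v⟫ = 0 ∧ fderiv ℝ R x v ≠ 0)
    (hconn : IsConnected {x : sphere (0:E) 1 | R x ≤ 0})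
    (hball : ¬Pool.Agent.Q100.SS.IsBallS n {x : sphere (0:E) 1 | R x ≤ 0})
    (hsc : SimplyConnectedSpace {x : sphere (0:E) 1 | R x = 0})
    {T : Type*} {φ : T → E → ℝ} (hφ : ∀ t, ContDiff ℝ ∞ (φ t)) {I : Finset T} (hI : I.Nonempty)
    {l : ℝ} (hl : 0 < l) :
    ∃ (x a b : E) (σ : ℝ), ‖x‖ = 1 ∧ R x ≤ 0 ∧ ‖a‖ = 1 ∧ ‖b‖ = 1 ∧ ⟪a, b⟫ = 0 ∧ ⟪x, a⟫ = 0 ∧
      ⟪x, b⟫ = 0 ∧ 0 ≤ σ ∧ σ * R x = 0 ∧ σ * fderiv ℝ R x a = 0 ∧ σ * fderiv ℝ R x b = 0 ∧
      ∑ t ∈ I, ww φ I l x t • tg (φ t) x + σ • tg R x = 0 ∧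
      ∀ θ : ℝ, ∑ t ∈ I, ww φ I l x t * (l * (fderiv ℝ (φ t) x
        (Real.cos θ • a + Real.sin θ • b)) ^ 2 + hq (φ t) x a b θ) + σ * hq R x a b θ ≤ 0 := by
  obtain ⟨x, hx, hRx, s, hs0, hsR, hg, v, w, hvw, hxv, hxw, hsv, hsw, h2⟩ :=
    Pool.Agent.Q196.XF.sph_crit hR hreg hconn hball hsc (ZZ_smooth hφ I l)
  obtain ⟨a, b, ha, hb, hab, ⟨p, q, hpq⟩, p', q', hpq'⟩ := orth_pair hvw
  have hZ : 0 < ZZ φ I l x := ZZ_pos hI
  have hlZ : 0 < l * ZZ φ I l x := mul_pos hl hZ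
  set σ := s / (l * ZZ φ I l x) with hσ
  have hsσ : s = l * ZZ φ I l x * σ := by rw [hσ]; field_simp
  have hxa : ⟪x, a⟫ = 0 := by
    rw [hpq, inner_add_right, inner_smul_right, inner_smul_right, hxv, hxw]; ring
  have hxb : ⟪x, b⟫ = 0 := by
    rw [hpq', inner_add_right, inner_smul_right, inner_smul_right, hxv, hxw]; ring
  have hsa : s * fderiv ℝ R x a = 0 := by
    rw [hpq, map_add, map_smul, map_smul, smul_eq_mul, smul_eq_mul]
    linear_combination p * hsv + q * hsw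
  have hsb : s * fderiv ℝ R x b = 0 := by
    rw [hpq', map_add, map_smul, map_smul, smul_eq_mul, smul_eq_mul]
    linear_combination p' * hsv + q' * hsw
  refine ⟨x, a, b, σ, hx, hRx, ha, hb, hab, hxa, hxb, by positivity, ?_, ?_, ?_, ?_, fun θ => ?_⟩
  · rw [hσ, div_mul_eq_mul_div, hsR, zero_div]
  · rw [hσ, div_mul_eq_mul_div, hsa, zero_div]
  · rw [hσ, div_mul_eq_mul_div, hsb, zero_div]
  · set P := ∑ t ∈ I, ww φ I l x t • tg (φ t) x + σ • tg R x with hP
    have hPv : ∀ v, ⟪x, v⟫ = 0 → ⟪P, v⟫ = 0 := fun v hv => by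
      have h := hg v hv
      rw [ZZ_fderiv hφ hI, hsσ, mul_assoc (l * ZZ φ I l x) σ, ← mul_add] at h
      have h3 := (mul_eq_zero.1 h).resolve_left hlZ.ne'
      rw [hP, inner_add_left, sum_inner, inner_smul_left, ← fderiv_eq_tg hR hv]
      rw [← h3]
      congr 1
      refine Finset.sum_congr rfl fun t _ => ?_
      rw [inner_smul_left, ← fderiv_eq_tg (hφ t) hv]
      rfl
    have hxP : ⟪x, P⟫ = 0 := by
      rw [hP, inner_add_right, inner_sum, inner_smul_right, real_inner_comm (tg R x) x, tg_orth hx,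
        mul_zero, add_zero]
      refine Finset.sum_eq_zero fun t _ => ?_
      rw [inner_smul_right, real_inner_comm (tg (φ t) x) x, tg_orth hx, mul_zero]
    exact inner_self_eq_zero.1 (hPv P hxP)
  · set u : E := Real.cos θ • a + Real.sin θ • b with hu
    have hun : ‖u‖ = 1 := gc_norm ha hb hab θ
    have hxu : ⟪x, u⟫ = 0 := by
      rw [hu, inner_add_right, inner_smul_right, inner_smul_right, hxa, hxb]; ring
    have h3 := h2 (Real.cos θ * p + Real.sin θ * p') (Real.cos θ * q + Real.sin θ * q') (gc x u)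
      (contDiff_infty.1 (gc_smooth x u) 2).contDiffAt (gc_zero x u)
      (by
        rw [gc_deriv, hu]
        nth_rewrite 1 [hpq]
        nth_rewrite 1 [hpq']
        simp only [smul_add, smul_smul, add_smul]
        abel)
      (Eventually.of_forall fun t => gc_norm hx hun hxu t)
    rw [ZZ_second hR hφ hI hun, hsσ, mul_assoc (l * ZZ φ I l x) σ, ← mul_add] at h3
    have h4 : ∑ t ∈ I, ww φ I l x t * (l * (fderiv ℝ (φ t) x u) ^ 2 + hs (φ t) x u u) +
        σ * hs R x u u ≤ 0 := by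
      by_contra hcon
      push Not at hcon
      linarith [mul_pos hlZ hcon]
    simp only [hu, hs_eq_hq] at h4
    exact h4

end Pool.Agent.H22.EQ
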