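import Mathlib

/-! Sums of exponentials of linear functions on the sphere. -/

set_option autoImplicit false

open Set Filter
open scoped Topology ContDiff RealInnerProductSpace

noncomputable section

namespace Pool.Agent.H22.EQ

variable {E : Type*} [NormedAddCommGroup E] [InnerProductSpace ℝ E]

/-- the sum of the exponentials -/
def Z (T : Finset E) (l : ℝ) (x : E) : ℝ := ∑ y ∈ T, Real.exp (l * ⟪x, y⟫)

/-- the weights -/
def wt (T : Finset E) (l : ℝ) (x y : E) : ℝ := Real.exp (l * ⟪x, y⟫) / Z T l x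

variable {T : Finset E} {l : ℝ} {x : E}

theorem Z_pos (hT : T.Nonempty) : 0 < Z T l x :=
  Finset.sum_pos (fun _ _ => Real.exp_pos _) hT

theorem wt_pos (hT : T.Nonempty) (y : E) : 0 < wt T l x y := div_pos (Real.exp_pos _) (Z_pos hT)

theorem sum_wt (hT : T.Nonempty) : ∑ y ∈ T, wt T l x y = 1 := by
  unfold wt
  rw [← Finset.sum_div]
  exact div_self (Z_pos hT).ne'

theorem Z_smooth (T : Finset E) (l : ℝ) : ContDiff ℝ ∞ (Z T l) := by
  unfold Z
  refine ContDiff.sum fun y _ => ?_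
  exact (contDiff_const.mul (contDiff_id.inner ℝ contDiff_const)).exp

theorem Z_fderiv (T : Finset E) (l : ℝ) (x v : E) :
    fderiv ℝ (Z T l) x v = ∑ y ∈ T, Real.exp (l * ⟪x, y⟫) * (l * ⟪v, y⟫) := by
  have h : ∀ y ∈ T, HasFDerivAt (fun z : E => Real.exp (l * ⟪z, y⟫))
      (Real.exp (l * ⟪x, y⟫) • (l • innerSL ℝ y)) x := by
    intro y _
    have h1 : HasFDerivAt (fun z : E => ⟪z, y⟫) (innerSL ℝ y) x := by
      have h2 : (fun z : E => ⟪z, y⟫) = fun z => innerSL ℝ y z := by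
        funext z
        rw [innerSL_apply_apply, real_inner_comm]
      rw [h2]
      exact (innerSL ℝ y).hasFDerivAt
    exact (h1.const_mul l).exp
  have h3 : HasFDerivAt (Z T l) (∑ y ∈ T, Real.exp (l * ⟪x, y⟫) • (l • innerSL ℝ y)) x :=
    HasFDerivAt.fun_sum h
  rw [h3.fderiv, _root_.sum_apply]
  refine Finset.sum_congr rfl fun y _ => ?_
  show Real.exp (l * ⟪x, y⟫) * (l * ⟪y, v⟫) = _
  rw [real_inner_comm v y]

/-- the great circle -/
def gc (x u : E) (t : ℝ) : E := Real.cos t • x + Real.sin t • u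

theorem gc_smooth (x u : E) : ContDiff ℝ ∞ (gc x u) := by
  unfold gc
  exact (Real.contDiff_cos.smul contDiff_const).add (Real.contDiff_sin.smul contDiff_const)

theorem gc_zero (x u : E) : gc x u 0 = x := by simp [gc]

theorem gc_deriv (x u : E) : deriv (gc x u) 0 = u := by
  have h : HasDerivAt (gc x u) ((-Real.sin 0) • x + (Real.cos 0) • u) 0 :=
    ((Real.hasDerivAt_cos 0).smul_const x).add ((Real.hasDerivAt_sin 0).smul_const u)
  rw [h.deriv]
  simp

theorem gc_norm {x u : E} (hx : ‖x‖ = 1) (hu : ‖u‖ = 1) (hxu : ⟪x, u⟫ = 0) (t : ℝ) :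
    ‖gc x u t‖ = 1 := by
  have h : ‖gc x u t‖ ^ 2 = 1 := by
    unfold gc
    rw [norm_add_sq_real, norm_smul, norm_smul, inner_smul_left, inner_smul_right, hx, hu, hxu]
    simp only [mul_one, Real.norm_eq_abs, sq_abs, mul_zero, add_zero]
    exact Real.cos_sq_add_sin_sq t
  have h0 := norm_nonneg (gc x u t)
  nlinarith

theorem Z_second (T : Finset E) (l : ℝ) (x u : E) :
    deriv (deriv fun t => Z T l (gc x u t)) 0 =
      ∑ y ∈ T, Real.exp (l * ⟪x, y⟫) * (l ^ 2 * ⟪u, y⟫ ^ 2 - l * ⟪x, y⟫) := by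
  have h1 : ∀ t : ℝ, HasDerivAt (fun t => Z T l (gc x u t))
      (∑ y ∈ T, Real.exp (l * (Real.cos t * ⟪x, y⟫ + Real.sin t * ⟪u, y⟫)) *
        (l * (-Real.sin t * ⟪x, y⟫ + Real.cos t * ⟪u, y⟫))) t := by
    intro t
    have e : (fun t => Z T l (gc x u t)) = fun t => ∑ y ∈ T,
        Real.exp (l * (Real.cos t * ⟪x, y⟫ + Real.sin t * ⟪u, y⟫)) := by
      funext t
      unfold Z gc
      refine Finset.sum_congr rfl fun y _ => ?_
      rw [inner_add_left, inner_smul_left, inner_smul_left]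
      simp
    rw [e]
    refine HasDerivAt.fun_sum fun y _ => ?_
    exact ((((Real.hasDerivAt_cos t).mul_const _).add
      ((Real.hasDerivAt_sin t).mul_const _)).const_mul l).exp
  have h2 : deriv (fun t => Z T l (gc x u t)) = fun t =>
      ∑ y ∈ T, Real.exp (l * (Real.cos t * ⟪x, y⟫ + Real.sin t * ⟪u, y⟫)) *
        (l * (-Real.sin t * ⟪x, y⟫ + Real.cos t * ⟪u, y⟫)) := funext fun t => (h1 t).deriv
  have h3 : HasDerivAt (fun t => ∑ y ∈ T,
      Real.exp (l * (Real.cos t * ⟪x, y⟫ + Real.sin t * ⟪u, y⟫)) *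
        (l * (-Real.sin t * ⟪x, y⟫ + Real.cos t * ⟪u, y⟫)))
      (∑ y ∈ T, ((Real.exp (l * (Real.cos 0 * ⟪x, y⟫ + Real.sin 0 * ⟪u, y⟫)) *
        (l * (-Real.sin 0 * ⟪x, y⟫ + Real.cos 0 * ⟪u, y⟫))) *
        (l * (-Real.sin 0 * ⟪x, y⟫ + Real.cos 0 * ⟪u, y⟫)) +
        Real.exp (l * (Real.cos 0 * ⟪x, y⟫ + Real.sin 0 * ⟪u, y⟫)) *
        (l * (-Real.cos 0 * ⟪x, y⟫ + -Real.sin 0 * ⟪u, y⟫)))) 0 := by
    refine HasDerivAt.fun_sum fun y _ => ?_
    exact ((((Real.hasDerivAt_cos 0).mul_const _).add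
      ((Real.hasDerivAt_sin 0).mul_const _)).const_mul l).exp.mul
      ((((Real.hasDerivAt_sin 0).neg.mul_const _).add
        ((Real.hasDerivAt_cos 0).mul_const _)).const_mul l)
  rw [h2, h3.deriv]
  refine Finset.sum_congr rfl fun y _ => ?_
  rw [Real.cos_zero, Real.sin_zero]
  ring_nf

/-- the mean of the linear function is almost its maximum -/
theorem gibbs (hl : 0 < l) {y' : E} (hy' : y' ∈ T) :
    ⟪x, y'⟫ - T.card / l ≤ ∑ y ∈ T, wt T l x y * ⟪x, y⟫ := by
  have hT : T.Nonempty := ⟨y', hy'⟩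
  have h1 : ∀ y ∈ T, wt T l x y * (⟪x, y'⟫ - ⟪x, y⟫) ≤ 1 / l := by
    intro y _
    rcases le_total ⟪x, y'⟫ ⟪x, y⟫ with h | h
    · have : wt T l x y * (⟪x, y'⟫ - ⟪x, y⟫) ≤ 0 :=
        mul_nonpos_of_nonneg_of_nonpos (wt_pos hT y).le (by linarith)
      exact this.trans (by positivity)
    · set a := l * (⟪x, y'⟫ - ⟪x, y⟫) with ha
      have ha0 : 0 ≤ a := mul_nonneg hl.le (by linarith)
      have hw : wt T l x y ≤ Real.exp (-a) := by
        unfold wt
        rw [div_le_iff₀ (Z_pos hT)]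
        have h2 : Real.exp (l * ⟪x, y'⟫) ≤ Z T l x :=
          Finset.single_le_sum (f := fun y => Real.exp (l * ⟪x, y⟫))
            (fun _ _ => (Real.exp_pos _).le) hy'
        calc Real.exp (l * ⟪x, y⟫) = Real.exp (-a) * Real.exp (l * ⟪x, y'⟫) := by
              rw [← Real.exp_add]; congr 1; rw [ha]; ring
          _ ≤ _ := mul_le_mul_of_nonneg_left h2 (Real.exp_pos _).le
      have h3 : Real.exp (-a) * a ≤ 1 := by
        have h4 : a ≤ Real.exp a := by linarith [Real.add_one_le_exp a]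
        calc Real.exp (-a) * a ≤ Real.exp (-a) * Real.exp a :=
              mul_le_mul_of_nonneg_left h4 (Real.exp_pos _).le
          _ = 1 := by rw [← Real.exp_add]; simp
      rw [le_div_iff₀ hl]
      calc wt T l x y * (⟪x, y'⟫ - ⟪x, y⟫) * l = wt T l x y * a := by rw [ha]; ring
        _ ≤ Real.exp (-a) * a := mul_le_mul_of_nonneg_right hw ha0
        _ ≤ 1 := h3
  have h2 := Finset.sum_le_sum h1
  rw [Finset.sum_const, nsmul_eq_mul] at h2
  have h3 : ∑ y ∈ T, wt T l x y * (⟪x, y'⟫ - ⟪x, y⟫) =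
      ⟪x, y'⟫ - ∑ y ∈ T, wt T l x y * ⟪x, y⟫ := by
    simp only [mul_sub]
    rw [Finset.sum_sub_distrib, ← Finset.sum_mul, sum_wt hT, one_mul]
  rw [h3, mul_one_div] at h2
  linarith

end Pool.Agent.H22.EQ
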