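import Pool.Agent.H22.EQ.Main

/-! The limit of the critical points. -/

set_option autoImplicit false

open Set Filter Metric Module
open scoped Topology ContDiff RealInnerProductSpace Gradient

noncomputable section

namespace Pool.Agent.H22.EQ

variable {E : Type} [NormedAddCommGroup E] [InnerProductSpace ℝ E] [FiniteDimensional ℝ E]
  {R : E → ℝ}

theorem pt_cont (hR : ContDiff ℝ ∞ R)
    (hreg : ∀ x, ‖x‖ = 1 → R x = 0 → ∃ v, ⟪x, v⟫ = 0 ∧ fderiv ℝ R x v ≠ 0) (τ : ℝ) :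
    ContinuousOn (pt R τ) {z | ‖z‖ = 1 ∧ R z = 0} := by
  unfold pt nu
  have h := tg_cont hR
  have h2 : ContinuousOn (fun z => ‖tg R z‖⁻¹) {z | ‖z‖ = 1 ∧ R z = 0} :=
    h.norm.continuousOn.inv₀ fun z hz => norm_ne_zero_iff.2 (tg_ne hR hreg hz.1 hz.2)
  exact (continuousOn_id.const_smul _).add ((h2.smul h.continuousOn).const_smul _)

/-- the limit is not a point of the hypersurface -/
theorem case_boundary (hR : ContDiff ℝ ∞ R)
    (hreg : ∀ x, ‖x‖ = 1 → R x = 0 → ∃ v, ⟪x, v⟫ = 0 ∧ fderiv ℝ R x v ≠ 0) {τ : ℝ} (hτ0 : 0 < τ)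
    (hτ1 : τ < Real.pi / 2)
    (hext : ∀ x z : E, ‖x‖ = 1 → ‖z‖ = 1 → R x ≤ 0 → R z = 0 →
      ⟪x, pt R τ z⟫ ≤ Real.cos τ ∧ (Real.cos τ ≤ ⟪x, pt R τ z⟫ → x = z))
    {x P : E} (hx : ‖x‖ = 1) (hRx : R x = 0) (hP : P ∈ convexHull ℝ (pt R τ '' {z | ‖z‖ = 1 ∧ R z = 0}))
    (hmax : ∀ z, ‖z‖ = 1 → R z = 0 → ⟪x, pt R τ z⟫ ≤ ⟪x, P⟫) (htg : ⟪P, tg R x⟫ ≤ 0) : False := by
  have ht := tg_ne hR hreg hx hRx
  have hcos : Real.cos τ ≤ ⟪x, P⟫ := by
    refine le_trans (le_of_eq ?_) (hmax x hx hRx)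
    unfold pt
    rw [inner_add_right, inner_smul_right, inner_smul_right, real_inner_self_eq_norm_sq, hx,
      real_inner_comm, nu_orth hx]
    ring
  obtain ⟨ι, hι, y, w, hy, -, hw0, hw1, hsum⟩ := eq_pos_convex_span_of_mem_convexHull hP
  have hyz : ∀ i, ∃ z, ‖z‖ = 1 ∧ R z = 0 ∧ pt R τ z = y i := fun i => by
    obtain ⟨z, ⟨h1, h2⟩, h3⟩ := hy ⟨i, rfl⟩
    exact ⟨z, h1, h2, h3⟩
  choose z hz1 hz2 hz3 using hyz
  have hle : ∀ i, ⟪x, y i⟫ ≤ Real.cos τ := fun i => by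
    rw [← hz3 i]; exact (hext x (z i) hx (hz1 i) hRx.le (hz2 i)).1
  have hmean : Real.cos τ ≤ ∑ i, w i * ⟪x, y i⟫ := by
    refine hcos.trans (le_of_eq ?_)
    rw [← hsum, inner_sum]
    exact Finset.sum_congr rfl fun i _ => inner_smul_right _ _ _
  have heq := mean_eq hw0 hw1 hle hmean
  have hy2 : ∀ i, y i = pt R τ x := fun i => by
    have h1 := (hext x (z i) hx (hz1 i) hRx.le (hz2 i)).2 (by rw [hz3 i, heq i])
    rw [← hz3 i, ← h1]
  have hPx : P = pt R τ x := by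
    rw [← hsum]
    simp only [hy2]
    rw [← Finset.sum_smul, hw1, one_smul]
  have hpos : 0 < ⟪pt R τ x, tg R x⟫ := by
    unfold pt nu
    rw [inner_add_left, inner_smul_left, inner_smul_left, inner_smul_left,
      real_inner_comm (tg R x) x, tg_orth hx, real_inner_self_eq_norm_sq]
    have h1 : 0 < ‖tg R x‖ := norm_pos_iff.2 ht
    have h2 : 0 < Real.sin τ := Real.sin_pos_of_pos_of_lt_pi hτ0 (by linarith [Real.pi_pos])
    simp only [conj_trivial, mul_zero, zero_add]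
    positivity
  rw [hPx] at htg
  linarith

/-- the quadratic function of the two directions -/
def qd (a b y : E) : ℝ := ⟪a, y⟫ ^ 2 + ⟪b, y⟫ ^ 2

/-- the limit in the interior -/
theorem case_interior {n : ℕ} [Fact (finrank ℝ E = n + 1)] (hR : ContDiff ℝ ∞ R)
    (hreg : ∀ x, ‖x‖ = 1 → R x = 0 → ∃ v, ⟪x, v⟫ = 0 ∧ fderiv ℝ R x v ≠ 0) {τ : ℝ} (hτ0 : 0 < τ)
    (hτ1 : τ < Real.pi / 2)
    (hext : ∀ x z : E, ‖x‖ = 1 → ‖z‖ = 1 → R x ≤ 0 → R z = 0 →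
      ⟪x, pt R τ z⟫ ≤ Real.cos τ ∧ (Real.cos τ ≤ ⟪x, pt R τ z⟫ → x = z))
    {x P a b : E} (hx : ‖x‖ = 1) (hRx : R x < 0) (ha : ‖a‖ = 1) (hb : ‖b‖ = 1)
    (hxa : ⟪x, a⟫ = 0) (hxb : ⟪x, b⟫ = 0) (hab : ⟪a, b⟫ = 0)
    (hP : (P, (0:ℝ)) ∈ convexHull ℝ ((fun y => (y, qd a b y)) '' (pt R τ '' {z | ‖z‖ = 1 ∧ R z = 0})))
    (hmax : ∀ z, ‖z‖ = 1 → R z = 0 → ⟪x, pt R τ z⟫ ≤ ⟪x, P⟫) (hPx : P = ⟪x, P⟫ • x)
    (hP0 : 0 ≤ ⟪x, P⟫) :
    ∃ c : ℝ, 0 < c ∧ c < 1 ∧ (∀ y, ‖y‖ = 1 → c < ⟪x, y⟫ → R y < 0) ∧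
      ∃ Z : Finset E, Z.card + 1 ≤ n ∧ (∀ z ∈ Z, ‖z‖ = 1 ∧ R z = 0 ∧ ⟪x, z⟫ = c) ∧
      c • x ∈ convexHull ℝ (Z : Set E) := by
  classical
  obtain ⟨ι, hι, u, w, hu, haff, hw0, hw1, hsum⟩ := eq_pos_convex_span_of_mem_convexHull hP
  have huz : ∀ i, ∃ z, ‖z‖ = 1 ∧ R z = 0 ∧ (pt R τ z, qd a b (pt R τ z)) = u i := fun i => by
    obtain ⟨_, ⟨z, ⟨h1, h2⟩, rfl⟩, h3⟩ := hu ⟨i, rfl⟩
    exact ⟨z, h1, h2, h3⟩
  choose z hz1 hz2 hz3 using huz
  have hs1 : ∑ i, w i • pt R τ (z i) = P := by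
    have h := congrArg Prod.fst hsum
    rw [Prod.fst_sum] at h
    refine Eq.trans ?_ h
    exact Finset.sum_congr rfl fun i _ => by rw [← hz3 i]; rfl
  have hs2 : ∑ i, w i * qd a b (pt R τ (z i)) = 0 := by
    have h := congrArg Prod.snd hsum
    rw [Prod.snd_sum] at h
    refine Eq.trans ?_ h
    exact Finset.sum_congr rfl fun i _ => by rw [← hz3 i]; rfl
  have hq0 : ∀ i, qd a b (pt R τ (z i)) = 0 := by
    intro i
    have h2 : ∀ i ∈ Finset.univ, 0 ≤ w i * qd a b (pt R τ (z i)) := fun i _ =>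
      mul_nonneg (hw0 i).le (by unfold qd; positivity)
    have h3 := (Finset.sum_eq_zero_iff_of_nonneg h2).1 hs2 i (Finset.mem_univ i)
    exact (mul_eq_zero.1 h3).resolve_left (hw0 i).ne'
  have hay : ∀ i, ⟪a, pt R τ (z i)⟫ = 0 := fun i => by
    have h := hq0 i
    unfold qd at h
    nlinarith [sq_nonneg ⟪a, pt R τ (z i)⟫, sq_nonneg ⟪b, pt R τ (z i)⟫]
  have hby : ∀ i, ⟪b, pt R τ (z i)⟫ = 0 := fun i => by
    have h := hq0 i
    unfold qd at h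
    nlinarith [sq_nonneg ⟪a, pt R τ (z i)⟫, sq_nonneg ⟪b, pt R τ (z i)⟫]
  have hxy : ∀ i, ⟪x, pt R τ (z i)⟫ = ⟪x, P⟫ := by
    refine mean_eq hw0 hw1 (fun i => hmax _ (hz1 i) (hz2 i)) (le_of_eq ?_)
    rw [← hs1, inner_sum]
    exact Finset.sum_congr rfl fun i _ => inner_smul_right _ _ _
  have haff2 : AffineIndependent ℝ fun i => pt R τ (z i) := by
    have h1 : u = (LinearMap.inl ℝ E ℝ).toAffineMap ∘ fun i => pt R τ (z i) := by
      funext i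
      rw [← hz3 i, hq0 i]
      rfl
    rw [h1] at haff
    exact haff.of_comp _
  have hcard := card_bound (n := n) hx ha hb hxa hxb hab haff2 hxy hay hby
  have hcon := fun i => contact hR hreg hτ0 hτ1 hext hx hRx hP0 hmax (hz1 i) (hz2 i) (hxy i)
  set μ := ⟪x, P⟫ with hμ
  set D := Real.arccos μ with hD
  obtain ⟨i0⟩ : Nonempty ι := by
    by_contra h
    rw [not_nonempty_iff] at h
    rw [Finset.univ_eq_empty, Finset.sum_empty] at hw1
    exact zero_ne_one hw1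
  obtain ⟨hτD, hDpi, hcosD, -, -, hcap⟩ := hcon i0
  have hpi := Real.pi_pos
  have hc0 : 0 < Real.cos (D - τ) := Real.cos_pos_of_mem_Ioo ⟨by linarith, by linarith⟩
  have hc1 : Real.cos (D - τ) < 1 := by
    rw [← Real.cos_zero]
    exact Real.cos_lt_cos_of_nonneg_of_le_pi_div_two le_rfl (by linarith) (by linarith)
  refine ⟨Real.cos (D - τ), hc0, hc1,
    fun y hy hcy => cap_in hR.continuous hx hRx hc0.le hcap hy hcy,
    Finset.univ.image z, ?_, ?_, ?_⟩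
  · have := Finset.card_image_le (s := (Finset.univ : Finset ι)) (f := z)
    rw [Finset.card_univ] at this
    omega
  · intro z' hz'
    obtain ⟨i, -, rfl⟩ := Finset.mem_image.1 hz'
    exact ⟨hz1 i, hz2 i, (hcon i).2.2.2.2.1⟩
  · have hsz : ∑ i, w i • z i = Real.cos (D - τ) • x := by
      set α := Real.sin (D - τ) / Real.sin D with hα
      set β := Real.sin τ / Real.sin D with hβ
      have h1 : ∑ i, w i • z i = (α * μ + β) • x := by
        have h2 : ∀ i, w i • z i = α • (w i • pt R τ (z i)) + w i • (β • x) := fun i => by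
          conv_lhs => rw [(hcon i).2.2.2.1]
          rw [smul_add, smul_smul, mul_comm (w i) α, ← smul_smul]
        rw [Finset.sum_congr rfl fun i _ => h2 i, Finset.sum_add_distrib, ← Finset.smul_sum, hs1,
          ← Finset.sum_smul, hw1, one_smul, hPx, smul_smul, ← add_smul]
      have h3 : α * μ + β = Real.cos (D - τ) := by
        have h4 : ⟪x, ∑ i, w i • z i⟫ = Real.cos (D - τ) := by
          rw [inner_sum]
          have h5 : ∀ i, ⟪x, w i • z i⟫ = w i * Real.cos (D - τ) := fun i => by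
            rw [inner_smul_right, (hcon i).2.2.2.2.1]
          rw [Finset.sum_congr rfl fun i _ => h5 i, ← Finset.sum_mul, hw1, one_mul]
        rw [h1, inner_smul_right, real_inner_self_eq_norm_sq, hx] at h4
        linarith
      rw [h1, h3]
    rw [← hsz]
    refine (convex_convexHull ℝ _).sum_mem (fun i _ => (hw0 i).le) hw1 fun i _ => ?_
    exact subset_convexHull ℝ _ (by simp)

end Pool.Agent.H22.EQ
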