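import Pool.Agent.H22.EQ.Ext
import Pool.Agent.H22.EQ.Conv
import Pool.Graph.R_pool_sql_team_seeded_3997aac3.Q196.XF.Sch

/-! Inscribed caps in equilibrium with few contact points. -/

set_option autoImplicit false

open Set Filter Metric Module
open scoped Topology ContDiff RealInnerProductSpace Gradient

noncomputable section

namespace Pool.Agent.H22.EQ

section lin

variable {E : Type*} [NormedAddCommGroup E] [InnerProductSpace ℝ E]

theorem orth_pair {v w : E} (h : LinearIndependent ℝ ![v, w]) :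
    ∃ a b : E, ‖a‖ = 1 ∧ ‖b‖ = 1 ∧ ⟪a, b⟫ = 0 ∧ (∃ p q : ℝ, a = p • v + q • w) ∧
      ∃ p q : ℝ, b = p • v + q • w := by
  rw [LinearIndependent.pair_iff] at h
  have hv : v ≠ 0 := by
    rintro rfl
    have := (h 1 0 (by simp)).1
    exact one_ne_zero this
  have hv' : ‖v‖ ≠ 0 := norm_ne_zero_iff.2 hv
  set a : E := ‖v‖⁻¹ • v with ha
  have han : ‖a‖ = 1 := by
    rw [ha, norm_smul, norm_inv, norm_norm, inv_mul_cancel₀ hv']
  set c : E := w - ⟪a, w⟫ • a with hc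
  have hc0 : c ≠ 0 := by
    intro h0
    have h1 : (-(⟪a, w⟫ * ‖v‖⁻¹)) • v + (1:ℝ) • w = 0 := by
      rw [← h0, hc]
      nth_rewrite 3 [ha]
      rw [smul_smul, neg_smul, one_smul]
      abel
    exact one_ne_zero (h _ _ h1).2
  have hc' : ‖c‖ ≠ 0 := norm_ne_zero_iff.2 hc0
  have hac : ⟪a, c⟫ = 0 := by
    rw [hc, inner_sub_right, inner_smul_right, real_inner_self_eq_norm_sq, han]
    ring
  refine ⟨a, ‖c‖⁻¹ • c, han, ?_, ?_, ⟨‖v‖⁻¹, 0, by rw [zero_smul, add_zero]⟩,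
    ⟨‖c‖⁻¹ * (-(⟪a, w⟫ * ‖v‖⁻¹)), ‖c‖⁻¹, ?_⟩⟩
  · rw [norm_smul, norm_inv, norm_norm, inv_mul_cancel₀ hc']
  · rw [inner_smul_right, hac, mul_zero]
  · nth_rewrite 2 [hc]
    nth_rewrite 2 [ha]
    rw [mul_smul, ← smul_add, smul_smul, neg_smul]
    congr 1
    abel

variable {T : Finset E} {l : ℝ} {x : E}

theorem fd_eq (hT : T.Nonempty) (v : E) : fderiv ℝ (Z T l) x v =
    l * Z T l x * ⟪∑ y ∈ T, wt T l x y • y, v⟫ := by
  rw [Z_fderiv, sum_inner, Finset.mul_sum]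
  refine Finset.sum_congr rfl fun y _ => ?_
  have h := (Z_pos (T := T) (l := l) (x := x) hT).ne'
  rw [inner_smul_left, real_inner_comm v y]
  unfold wt
  simp only [conj_trivial]
  field_simp

theorem sd_eq (hT : T.Nonempty) (u : E) : deriv (deriv fun t => Z T l (gc x u t)) 0 =
    l * Z T l x * (l * (∑ y ∈ T, wt T l x y * ⟪u, y⟫ ^ 2) -
      ⟪x, ∑ y ∈ T, wt T l x y • y⟫) := by
  rw [Z_second, inner_sum, mul_sub, Finset.mul_sum, Finset.mul_sum, Finset.mul_sum,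
    ← Finset.sum_sub_distrib]
  refine Finset.sum_congr rfl fun y _ => ?_
  have h := (Z_pos (T := T) (l := l) (x := x) hT).ne'
  rw [inner_smul_right]
  unfold wt
  field_simp

theorem inner_le_one {x y : E} (hx : ‖x‖ = 1) (hy : ‖y‖ = 1) : ⟪x, y⟫ ≤ 1 := by
  have := real_inner_le_norm x y
  rwa [hx, hy, mul_one] at this

theorem mean_le (hT : T.Nonempty) (hx : ‖x‖ = 1) (hT1 : ∀ y ∈ T, ‖y‖ = 1) :
    ⟪x, ∑ y ∈ T, wt T l x y • y⟫ ≤ 1 := by
  rw [inner_sum]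
  calc ∑ y ∈ T, ⟪x, wt T l x y • y⟫ ≤ ∑ y ∈ T, wt T l x y := by
        refine Finset.sum_le_sum fun y hy => ?_
        rw [inner_smul_right]
        exact mul_le_of_le_one_right (wt_pos hT y).le (inner_le_one hx (hT1 y hy))
    _ = 1 := sum_wt hT

end lin

variable {E : Type} [NormedAddCommGroup E] [InnerProductSpace ℝ E]

/-- Critical points of the sums of exponentials -/
theorem approx {n : ℕ} [Fact (finrank ℝ E = n + 1)] [FiniteDimensional ℝ E]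
    {R : E → ℝ} (hR : ContDiff ℝ ∞ R)
    (hreg : ∀ x, ‖x‖ = 1 → R x = 0 → ∃ v, ⟪x, v⟫ = 0 ∧ fderiv ℝ R x v ≠ 0)
    (hconn : IsConnected {x : sphere (0:E) 1 | R x ≤ 0})
    (hball : ¬Pool.Agent.Q100.SS.IsBallS n {x : sphere (0:E) 1 | R x ≤ 0})
    (hsc : SimplyConnectedSpace {x : sphere (0:E) 1 | R x = 0})
    {T : Finset E} (hT : T.Nonempty) (hT1 : ∀ y ∈ T, ‖y‖ = 1) {l : ℝ} (hl : 0 < l) :
    ∃ x a b : E, ‖x‖ = 1 ∧ R x ≤ 0 ∧ ‖a‖ ≤ 1 ∧ ‖b‖ ≤ 1 ∧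
      ⟪∑ y ∈ T, wt T l x y • y, tg R x⟫ ≤ 0 ∧
      (R x < 0 → ∑ y ∈ T, wt T l x y • y = ⟪x, ∑ y ∈ T, wt T l x y • y⟫ • x ∧
        0 ≤ ⟪x, ∑ y ∈ T, wt T l x y • y⟫ ∧ ‖a‖ = 1 ∧ ‖b‖ = 1 ∧ ⟪a, b⟫ = 0 ∧
        ⟪x, a⟫ = 0 ∧ ⟪x, b⟫ = 0 ∧ ∑ y ∈ T, wt T l x y * ⟪a, y⟫ ^ 2 ≤ 1 / l ∧
        ∑ y ∈ T, wt T l x y * ⟪b, y⟫ ^ 2 ≤ 1 / l) := by
  obtain ⟨x, hx, hRx, s, hs, hsR, hg, v, w, hvw, hxv, hxw, -, -, h2⟩ :=
    Pool.Agent.Q196.XF.sph_crit hR hreg hconn hball hsc (Z_smooth T l)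
  obtain ⟨a, b, ha, hb, hab, ⟨p, q, hpq⟩, p', q', hpq'⟩ := orth_pair hvw
  have hZ : 0 < Z T l x := Z_pos hT
  have hlZ : 0 < l * Z T l x := mul_pos hl hZ
  refine ⟨x, a, b, hx, hRx, ha.le, hb.le, ?_, fun hR0 => ?_⟩
  · have h := hg (tg R x) (by rw [real_inner_comm]; exact tg_orth hx)
    rw [fd_eq hT, fderiv_eq_tg hR (by rw [real_inner_comm]; exact tg_orth hx),
      real_inner_self_eq_norm_sq] at h
    by_contra hcon
    push Not at hcon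
    have h3 := mul_pos hlZ hcon
    have h4 : 0 ≤ s * ‖tg R x‖ ^ 2 := by positivity
    linarith
  have hs0 : s = 0 := by
    rcases mul_eq_zero.1 hsR with h | h
    · exact h
    · linarith
  subst hs0
  set P := ∑ y ∈ T, wt T l x y • y with hP
  have hPv : ∀ v, ⟪x, v⟫ = 0 → ⟪P, v⟫ = 0 := fun v hv => by
    have h := hg v hv
    rw [fd_eq hT, zero_mul, add_zero] at h
    exact (mul_eq_zero.1 h).resolve_left hlZ.ne'
  have hPx : P = ⟪x, P⟫ • x := by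
    have h1 : ⟪x, P - ⟪x, P⟫ • x⟫ = 0 := by
      rw [inner_sub_right, inner_smul_right, real_inner_self_eq_norm_sq, hx]; ring
    have h3 : ⟪P - ⟪x, P⟫ • x, P - ⟪x, P⟫ • x⟫ = 0 := by
      rw [inner_sub_left, hPv _ h1, inner_smul_left, h1]; simp
    exact sub_eq_zero.1 (inner_self_eq_zero.1 h3)
  have hxa : ⟪x, a⟫ = 0 := by
    rw [hpq, inner_add_right, inner_smul_right, inner_smul_right, hxv, hxw]; ring
  have hxb : ⟪x, b⟫ = 0 := by
    rw [hpq', inner_add_right, inner_smul_right, inner_smul_right, hxv, hxw]; ring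
  have hsec : ∀ u : E, ‖u‖ = 1 → ⟪x, u⟫ = 0 → (∃ p q : ℝ, u = p • v + q • w) →
      ∑ y ∈ T, wt T l x y * ⟪u, y⟫ ^ 2 ≤ ⟪x, P⟫ / l := by
    rintro u hu hxu ⟨p, q, hpq⟩
    have h3 := h2 p q (gc x u) (contDiff_infty.1 (gc_smooth x u) 2).contDiffAt
      (gc_zero x u) (by rw [gc_deriv, hpq]) (Eventually.of_forall fun t => gc_norm hx hu hxu t)
    simp only [zero_mul, add_zero] at h3
    rw [sd_eq hT] at h3
    rw [le_div_iff₀ hl]
    by_contra hcon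
    push Not at hcon
    have h4 : 0 < l * (∑ y ∈ T, wt T l x y * ⟪u, y⟫ ^ 2) - ⟪x, P⟫ := by
      rw [mul_comm l]; linarith
    have := mul_pos hlZ h4
    linarith
  have hP1 : ⟪x, P⟫ ≤ 1 := mean_le hT hx hT1
  have hP0 : 0 ≤ ⟪x, P⟫ := by
    have h3 := hsec a ha hxa ⟨p, q, hpq⟩
    have h4 : 0 ≤ ∑ y ∈ T, wt T l x y * ⟪a, y⟫ ^ 2 :=
      Finset.sum_nonneg fun y _ => mul_nonneg (wt_pos hT y).le (sq_nonneg _)
    by_contra hcon
    push Not at hcon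
    have := div_neg_of_neg_of_pos hcon hl
    linarith
  have hP2 : ⟪x, P⟫ / l ≤ 1 / l := div_le_div_of_nonneg_right hP1 hl.le
  exact ⟨hPx, hP0, ha, hb, hab, hxa, hxb, (hsec a ha hxa ⟨p, q, hpq⟩).trans hP2,
    (hsec b hb hxb ⟨p', q', hpq'⟩).trans hP2⟩

omit [InnerProductSpace ℝ E] in
/-- if all the terms of a mean are at most the mean, they are equal to the mean -/
theorem mean_eq {ι : Type*} [Fintype ι] {w f : ι → ℝ} (hw : ∀ i, 0 < w i) (hw1 : ∑ i, w i = 1)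
    {μ : ℝ} (hf : ∀ i, f i ≤ μ) (hμ : μ ≤ ∑ i, w i * f i) (i : ι) : f i = μ := by
  have h1 : ∑ i, w i * (μ - f i) ≤ 0 := by
    simp only [mul_sub]
    rw [Finset.sum_sub_distrib, ← Finset.sum_mul, hw1]
    linarith
  have h2 : ∀ i ∈ Finset.univ, 0 ≤ w i * (μ - f i) := fun i _ =>
    mul_nonneg (hw i).le (by linarith [hf i])
  have h3 := (Finset.sum_eq_zero_iff_of_nonneg h2).1 (le_antisymm h1 (Finset.sum_nonneg h2)) i
    (Finset.mem_univ i)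
  rcases mul_eq_zero.1 h3 with h | h
  · exact absurd h (hw i).ne'
  · linarith

/-- the cap around `x` -/
theorem cap_in {R : E → ℝ} (hR : Continuous R) {x : E} (hx : ‖x‖ = 1) (hRx : R x < 0) {c : ℝ}
    (hc : 0 ≤ c) (h : ∀ z', ‖z'‖ = 1 → R z' = 0 → ⟪x, z'⟫ ≤ c) {y : E} (hy : ‖y‖ = 1)
    (hcy : c < ⟪x, y⟫) : R y < 0 := by
  by_contra hcon
  push Not at hcon
  set m : ℝ → E := fun t => (1 - t) • x + t • y with hm
  have hmc : Continuous m := by rw [hm]; fun_prop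
  have hxm : ∀ t ∈ Icc (0:ℝ) 1, c < ⟪x, m t⟫ := fun t ht => by
    rw [hm]
    show c < ⟪x, (1 - t) • x + t • y⟫
    rw [inner_add_right, inner_smul_right, inner_smul_right, real_inner_self_eq_norm_sq, hx]
    have h1 := inner_le_one hx hy
    nlinarith [ht.1, ht.2]
  have hmn : ∀ t ∈ Icc (0:ℝ) 1, ‖m t‖ ≤ 1 := fun t ht => by
    calc ‖(1 - t) • x + t • y‖ ≤ ‖(1 - t) • x‖ + ‖t • y‖ := norm_add_le _ _
      _ = 1 := by
        rw [norm_smul, norm_smul, hx, hy, Real.norm_eq_abs, Real.norm_eq_abs,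
          abs_of_nonneg (by linarith [ht.2]), abs_of_nonneg ht.1]
        ring
  have hm0 : ∀ t ∈ Icc (0:ℝ) 1, ‖m t‖ ≠ 0 := fun t ht h0 => by
    have h1 := hxm t ht
    rw [norm_eq_zero.1 h0, inner_zero_right] at h1
    linarith
  have hcont : ContinuousOn (fun t => R (‖m t‖⁻¹ • m t)) (Icc 0 1) := by
    refine hR.comp_continuousOn ?_
    exact (hmc.norm.continuousOn.inv₀ hm0).smul hmc.continuousOn
  have e0 : ‖m 0‖⁻¹ • m 0 = x := by
    have : m 0 = x := by rw [hm]; simp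
    rw [this, hx]; simp
  have e1 : ‖m 1‖⁻¹ • m 1 = y := by
    have : m 1 = y := by rw [hm]; simp
    rw [this, hy]; simp
  obtain ⟨t, ht, hRt⟩ := intermediate_value_Icc (zero_le_one (α := ℝ)) hcont
    (show (0:ℝ) ∈ Icc (R (‖m 0‖⁻¹ • m 0)) (R (‖m 1‖⁻¹ • m 1)) by
      rw [e0, e1]; exact ⟨hRx.le, hcon⟩)
  have h1 := h (‖m t‖⁻¹ • m t) (by
    rw [norm_smul, norm_inv, norm_norm, inv_mul_cancel₀ (hm0 t ht)]) hRt
  rw [inner_smul_right] at h1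
  have h2 := hxm t ht
  have h3 : 1 ≤ ‖m t‖⁻¹ := (one_le_inv₀ (lt_of_le_of_ne (norm_nonneg _) (Ne.symm (hm0 t ht)))).2
    (hmn t ht)
  have h4 : ⟪x, m t⟫ ≤ ‖m t‖⁻¹ * ⟪x, m t⟫ := le_mul_of_one_le_left (by linarith) h3
  linarith

/-- vectors orthogonal to three orthonormal vectors -/
theorem card_bound {n : ℕ} [Fact (finrank ℝ E = n + 1)] [FiniteDimensional ℝ E] {x a b : E}
    (hx : ‖x‖ = 1) (ha : ‖a‖ = 1) (hb : ‖b‖ = 1) (hxa : ⟪x, a⟫ = 0) (hxb : ⟪x, b⟫ = 0)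
    (hab : ⟪a, b⟫ = 0) {ι : Type*} [Fintype ι] {y : ι → E} (hy : AffineIndependent ℝ y) {μ : ℝ}
    (h1 : ∀ i, ⟪x, y i⟫ = μ) (h2 : ∀ i, ⟪a, y i⟫ = 0) (h3 : ∀ i, ⟪b, y i⟫ = 0) :
    Fintype.card ι + 1 ≤ n := by
  have hon : Orthonormal ℝ ![x, a, b] := by
    rw [orthonormal_iff_ite]
    intro i j
    fin_cases i <;> fin_cases j <;>
      simp [hx, ha, hb, hxa, hxb, hab, real_inner_comm x a, real_inner_comm x b,
        real_inner_comm a b]
  have hli := hon.linearIndependent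
  set V : Submodule ℝ E := Submodule.span ℝ (range ![x, a, b]) with hV
  have hVf : finrank ℝ V = 3 := by
    rw [hV, finrank_span_eq_card hli]; simp
  have hsum := Submodule.finrank_add_finrank_orthogonal V
  rw [hVf, Fact.out (p := finrank ℝ E = n + 1)] at hsum
  have hle : vectorSpan ℝ (range y) ≤ Vᗮ := by
    rw [vectorSpan_def, Submodule.span_le]
    rintro _ ⟨_, ⟨i, rfl⟩, _, ⟨j, rfl⟩, rfl⟩
    rw [SetLike.mem_coe, Submodule.mem_orthogonal]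
    intro u hu
    have hu' : u ∈ (LinearMap.ker (innerSL ℝ (y i - y j) : E →L[ℝ] ℝ).toLinearMap) := by
      refine (Submodule.span_le.2 ?_) hu
      rintro _ ⟨k, rfl⟩
      show ⟪y i - y j, ![x, a, b] k⟫ = 0
      rw [real_inner_comm, inner_sub_right]
      fin_cases k
      · simp [h1]
      · simp [h2]
      · simp [h3]
    have hu2 : ⟪y i - y j, u⟫ = 0 := hu'
    show ⟪u, y i - y j⟫ = 0
    rw [real_inner_comm]; exact hu2
  have h4 := hy.card_le_finrank_succ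
  have h5 := Submodule.finrank_mono hle
  omega

end Pool.Agent.H22.EQ
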