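import Pool.Agent.H22.EQ.Fam
import Pool.Agent.H22.EQ.Caps

/-! Maxima of compact families of smooth functions on the sides of a knotted hypersurface. -/

set_option autoImplicit false

open Set Filter Metric Module
open scoped Topology ContDiff RealInnerProductSpace Gradient

noncomputable section

namespace Pool.Agent.H22.EQ

/-- the limit of the moments -/
theorem moment {T P V : Type*} [TopologicalSpace T] [CompactSpace T] [TopologicalSpace P]
    [NormedAddCommGroup V] [NormedSpace ℝ V] [FiniteDimensional ℝ V] (Ψ : C(P × T, V))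
    {p : ℕ → P} {p0 : P} (hp : Tendsto p atTop (𝓝 p0)) (S : ℕ → Finset T) (w : ℕ → T → ℝ)
    (hw : ∀ k t, 0 ≤ w k t) (hw1 : ∀ k, ∑ t ∈ S k, w k t = 1) :
    ∃ m0 ∈ convexHull ℝ (range fun t => Ψ (p0, t)), ∃ ψ : ℕ → ℕ, StrictMono ψ ∧
      Tendsto (fun k => ∑ t ∈ S (ψ k), w (ψ k) t • Ψ (p (ψ k), t)) atTop (𝓝 m0) := by
  have hK : IsCompact (convexHull ℝ (range fun t => Ψ (p0, t))) :=
    isCompact_convexHull (isCompact_range (by fun_prop))
  set m' : ℕ → V := fun k => ∑ t ∈ S k, w k t • Ψ (p0, t) with hm'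
  have hm'K : ∀ k, m' k ∈ convexHull ℝ (range fun t => Ψ (p0, t)) := fun k =>
    (convex_convexHull ℝ _).sum_mem (fun t _ => hw k t) (hw1 k) fun t _ =>
      subset_convexHull ℝ _ ⟨t, rfl⟩
  obtain ⟨m0, hm0, ψ, hψ, hlim⟩ := hK.tendsto_subseq hm'K
  refine ⟨m0, hm0, ψ, hψ, ?_⟩
  have hc : Tendsto (fun k => Ψ.curry (p k)) atTop (𝓝 (Ψ.curry p0)) :=
    (Ψ.curry.continuous.tendsto p0).comp hp
  have hd : Tendsto (fun k => dist (Ψ.curry (p (ψ k))) (Ψ.curry p0)) atTop (𝓝 0) :=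
    (tendsto_iff_dist_tendsto_zero.1 hc).comp hψ.tendsto_atTop
  have hdiff : Tendsto (fun k => ∑ t ∈ S (ψ k), w (ψ k) t • Ψ (p (ψ k), t) - m' (ψ k)) atTop
      (𝓝 0) := by
    refine squeeze_zero_norm (fun k => ?_) hd
    rw [hm']
    show ‖∑ t ∈ S (ψ k), w (ψ k) t • Ψ (p (ψ k), t) - ∑ t ∈ S (ψ k), w (ψ k) t • Ψ (p0, t)‖ ≤ _
    rw [← Finset.sum_sub_distrib]
    calc ‖∑ t ∈ S (ψ k), (w (ψ k) t • Ψ (p (ψ k), t) - w (ψ k) t • Ψ (p0, t))‖ ≤
        ∑ t ∈ S (ψ k), w (ψ k) t * dist (Ψ.curry (p (ψ k))) (Ψ.curry p0) := by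
          refine norm_sum_le_of_le _ fun t _ => ?_
          rw [← smul_sub, norm_smul, Real.norm_of_nonneg (hw _ _), ← dist_eq_norm]
          exact mul_le_mul_of_nonneg_left (ContinuousMap.dist_apply_le_dist (f := Ψ.curry (p (ψ k)))
            (g := Ψ.curry p0) t) (hw _ _)
      _ = _ := by rw [← Finset.sum_mul, hw1, one_mul]
  have h := hdiff.add hlim
  rw [zero_add] at h
  refine h.congr fun k => ?_
  show ∑ t ∈ S (ψ k), w (ψ k) t • Ψ (p (ψ k), t) - m' (ψ k) + m' (ψ k) = _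
  abel

/-- finite nets of a compact family of functions -/
theorem exists_net2 {T X : Type*} [TopologicalSpace T] [CompactSpace T] [Nonempty T]
    [TopologicalSpace X] [CompactSpace X] (f : C(T × X, ℝ)) {ε : ℝ} (hε : 0 < ε) :
    ∃ I : Finset T, I.Nonempty ∧ ∀ t, ∃ t' ∈ I, ∀ x, f (t, x) ≤ f (t', x) + ε := by
  classical
  obtain ⟨J, hJ, hJne, hJd⟩ := exists_net (isCompact_range f.curry.continuous)
    (range_nonempty _) hε
  choose g hg using fun y : {y // y ∈ J} => hJ y.1 y.2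
  refine ⟨J.attach.image g, ?_, fun t => ?_⟩
  · obtain ⟨y, hy⟩ := hJne
    exact ⟨g ⟨y, hy⟩, Finset.mem_image.2 ⟨⟨y, hy⟩, Finset.mem_attach _ _, rfl⟩⟩
  · obtain ⟨y, hy, hd⟩ := hJd (f.curry t) ⟨t, rfl⟩
    refine ⟨g ⟨y, hy⟩, Finset.mem_image.2 ⟨⟨y, hy⟩, Finset.mem_attach _ _, rfl⟩, fun x => ?_⟩
    have h1 : dist (f.curry t x) (y x) ≤ dist (f.curry t) y := ContinuousMap.dist_apply_le_dist x
    have h2 : f.curry (g ⟨y, hy⟩) = y := hg ⟨y, hy⟩
    rw [← h2, Real.dist_eq] at h1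
    have h3 : |f (t, x) - f (g ⟨y, hy⟩, x)| < ε := by
      refine lt_of_le_of_lt h1 ?_
      rw [h2]; exact hd
    linarith [(abs_lt.1 h3).2]

variable {E : Type} [NormedAddCommGroup E] [InnerProductSpace ℝ E]

section cont

variable {T : Type*} [TopologicalSpace T] {φ : T → E → ℝ}

theorem hs_cont (h1 : Continuous fun p : T × E => fderiv ℝ (φ p.1) p.2)
    (h2 : Continuous fun p : T × E => fderiv ℝ (fderiv ℝ (φ p.1)) p.2) {X : Type*}
    [TopologicalSpace X] {t : X → T} {x u v : X → E} (ht : Continuous t) (hx : Continuous x)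
    (hu : Continuous u) (hv : Continuous v) :
    Continuous fun q => hs (φ (t q)) (x q) (u q) (v q) := by
  unfold hs
  have e2 : Continuous fun q => fderiv ℝ (fderiv ℝ (φ (t q))) (x q) := h2.comp (ht.prodMk hx)
  have e1 : Continuous fun q => fderiv ℝ (φ (t q)) (x q) := h1.comp (ht.prodMk hx)
  exact ((e2.clm_apply hu).clm_apply hv).sub ((hu.inner hv).mul (e1.clm_apply hx))

theorem tg_cont2 [FiniteDimensional ℝ E] (h1 : Continuous fun p : T × E => fderiv ℝ (φ p.1) p.2)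
    {X : Type*} [TopologicalSpace X] {t : X → T} {x : X → E} (ht : Continuous t)
    (hx : Continuous x) : Continuous fun q => tg (φ (t q)) (x q) := by
  unfold tg gradient
  have e1 : Continuous fun q => fderiv ℝ (φ (t q)) (x q) := h1.comp (ht.prodMk hx)
  have e2 : Continuous fun q => (InnerProductSpace.toDual ℝ E).symm (fderiv ℝ (φ (t q)) (x q)) :=
    (InnerProductSpace.toDual ℝ E).symm.continuous.comp e1
  exact e2.sub ((e2.inner hx).smul hx)

end cont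

/-- the number of the affinely independent moments -/
theorem card_bound2 {n : ℕ} [Fact (finrank ℝ E = n + 1)] [FiniteDimensional ℝ E] {x a b : E}
    (hx : ‖x‖ = 1) (ha : ‖a‖ = 1) (hb : ‖b‖ = 1) (hxa : ⟪x, a⟫ = 0) (hxb : ⟪x, b⟫ = 0)
    (hab : ⟪a, b⟫ = 0) {ι : Type*} [Fintype ι] {z : ι → ℝ × E × ℝ × ℝ × ℝ × ℝ}
    (hz : AffineIndependent ℝ z) {v : ℝ} (h0 : ∀ i, (z i).1 = v) (h1 : ∀ i, ⟪x, (z i).2.1⟫ = 0)
    (h2 : ∀ i, ⟪a, (z i).2.1⟫ = 0) (h3 : ∀ i, ⟪b, (z i).2.1⟫ = 0)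
    (h4 : ∀ i, (z i).2.2.1 = 0) : Fintype.card ι ≤ n + 2 := by
  let L : (ℝ × E × ℝ × ℝ × ℝ × ℝ) →ₗ[ℝ] (ℝ × ℝ × ℝ × ℝ × ℝ) :=
    { toFun := fun z => (z.1, ⟪x, z.2.1⟫, ⟪a, z.2.1⟫, ⟪b, z.2.1⟫, z.2.2.1)
      map_add' := fun z z' => by simp [inner_add_right]
      map_smul' := fun c z => by simp [inner_smul_right] }
  have hax : ⟪a, x⟫ = 0 := by rw [real_inner_comm]; exact hxa
  have hbx : ⟪b, x⟫ = 0 := by rw [real_inner_comm]; exact hxb
  have hba : ⟪b, a⟫ = 0 := by rw [real_inner_comm]; exact hab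
  have hsurj : Function.Surjective L := by
    rintro ⟨p1, p2, p3, p4, p5⟩
    refine ⟨(p1, p2 • x + p3 • a + p4 • b, p5, 0, 0, 0), ?_⟩
    show (p1, ⟪x, p2 • x + p3 • a + p4 • b⟫, ⟪a, p2 • x + p3 • a + p4 • b⟫,
      ⟪b, p2 • x + p3 • a + p4 • b⟫, p5) = (p1, p2, p3, p4, p5)
    simp only [inner_add_right, inner_smul_right, real_inner_self_eq_norm_sq, hx, ha, hb, hxa,
      hxb, hab, hax, hbx, hba]
    norm_num
  have hdim := L.finrank_range_add_finrank_ker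
  rw [LinearMap.range_eq_top.2 hsurj, finrank_top] at hdim
  simp only [finrank_prod, finrank_self, Fact.out (p := finrank ℝ E = n + 1)] at hdim
  have hle : vectorSpan ℝ (range z) ≤ LinearMap.ker L := by
    rw [vectorSpan_def, Submodule.span_le]
    rintro _ ⟨_, ⟨i, rfl⟩, _, ⟨j, rfl⟩, rfl⟩
    show L (z i - z j) = 0
    rw [map_sub]
    show ((z i).1, ⟪x, (z i).2.1⟫, ⟪a, (z i).2.1⟫, ⟪b, (z i).2.1⟫, (z i).2.2.1) -
      ((z j).1, ⟪x, (z j).2.1⟫, ⟪a, (z j).2.1⟫, ⟪b, (z j).2.1⟫, (z j).2.2.1) = 0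
    rw [h0, h0, h1, h1, h2, h2, h3, h3, h4, h4, sub_self]
  have h5 := hz.card_le_finrank_succ
  have h6 := Submodule.finrank_mono hle
  omega

end Pool.Agent.H22.EQ
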