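import Pool.Agent.H22.EQ.MaxF

/-! Maxima of compact families of smooth functions: the theorem. -/

set_option autoImplicit false
set_option maxHeartbeats 1000000

open Set Filter Metric Module
open scoped Topology ContDiff RealInnerProductSpace Gradient

noncomputable section

namespace Pool.Agent.H22.EQ

variable {E : Type} [NormedAddCommGroup E] [InnerProductSpace ℝ E]

theorem hq_cont {R : E → ℝ} (hR : ContDiff ℝ ∞ R) (θ : ℝ) :
    Continuous fun q : E × E × E => hq R q.1 q.2.1 q.2.2 θ := by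
  have hR1 : Continuous fun p : Unit × E => fderiv ℝ R p.2 :=
    (hR.continuous_fderiv (by simp)).comp continuous_snd
  have hR2 : Continuous fun p : Unit × E => fderiv ℝ (fderiv ℝ R) p.2 := by
    have h : ContDiff ℝ ∞ (fderiv ℝ R) := hR.fderiv_right (m := ∞) (by simp)
    exact (h.continuous_fderiv (by simp)).comp continuous_snd
  unfold hq
  have g : ∀ {u v : E × E × E → E}, Continuous u → Continuous v →
      Continuous fun q : E × E × E => hs R q.1 (u q) (v q) := fun hu hv =>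
    hs_cont (φ := fun _ : Unit => R) (t := fun _ => ()) hR1 hR2 continuous_const
      continuous_fst hu hv
  have g1 := g (u := fun q => q.2.1) (v := fun q => q.2.1) continuous_snd.fst continuous_snd.fst
  have g2 := g (u := fun q => q.2.1) (v := fun q => q.2.2) continuous_snd.fst continuous_snd.snd
  have g3 := g (u := fun q => q.2.2) (v := fun q => q.2.1) continuous_snd.snd continuous_snd.fst
  have g4 := g (u := fun q => q.2.2) (v := fun q => q.2.2) continuous_snd.snd continuous_snd.snd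
  exact ((continuous_const.mul g1).add (continuous_const.mul (g2.add g3))).add
    (continuous_const.mul g4)

theorem hq_tendsto {R : E → ℝ} (hR : ContDiff ℝ ∞ R) (θ : ℝ) {x a b : ℕ → E} {x0 a0 b0 : E}
    (lx : Tendsto x atTop (𝓝 x0)) (la : Tendsto a atTop (𝓝 a0)) (lb : Tendsto b atTop (𝓝 b0)) :
    Tendsto (fun k => hq R (x k) (a k) (b k) θ) atTop (𝓝 (hq R x0 a0 b0 θ)) := by
  have h1 : Tendsto (fun k => (x k, a k, b k)) atTop (𝓝 (x0, a0, b0)) :=
    lx.prodMk_nhds (la.prodMk_nhds lb)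
  have h2 := (hq_cont hR θ).tendsto (x0, a0, b0)
  have h3 := h2.comp h1
  simpa only [Function.comp_def] using h3

theorem maxf {n : ℕ} [Fact (finrank ℝ E = n + 1)] {R : E → ℝ} (hR : ContDiff ℝ ∞ R)
    (hreg : ∀ x, ‖x‖ = 1 → R x = 0 → ∃ v, ⟪x, v⟫ = 0 ∧ fderiv ℝ R x v ≠ 0)
    (hconn : IsConnected {x : sphere (0:E) 1 | R x ≤ 0})
    (hball : ¬Pool.Agent.Q100.SS.IsBallS n {x : sphere (0:E) 1 | R x ≤ 0})
    (hsc : SimplyConnectedSpace {x : sphere (0:E) 1 | R x = 0})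
    {T : Type*} [TopologicalSpace T] [CompactSpace T] [Nonempty T] {φ : T → E → ℝ}
    (hφ : ∀ t, ContDiff ℝ ∞ (φ t)) (h0 : Continuous fun p : T × E => φ p.1 p.2)
    (h1 : Continuous fun p : T × E => fderiv ℝ (φ p.1) p.2)
    (h2 : Continuous fun p : T × E => fderiv ℝ (fderiv ℝ (φ p.1)) p.2) :
    ∃ (x : E) (s : ℝ), ‖x‖ = 1 ∧ R x ≤ 0 ∧ 0 ≤ s ∧ s * R x = 0 ∧
      ∃ (m : ℕ) (t : Fin m → T) (w : Fin m → ℝ), m ≤ n + 2 ∧ (∀ i, 0 < w i) ∧ ∑ i, w i = 1 ∧
        (∀ i t', φ t' x ≤ φ (t i) x) ∧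
        (∀ v, ⟪x, v⟫ = 0 → ∑ i, w i * fderiv ℝ (φ (t i)) x v + s * fderiv ℝ R x v = 0) ∧
        ∃ a b : E, ‖a‖ = 1 ∧ ‖b‖ = 1 ∧ ⟪a, b⟫ = 0 ∧ ⟪x, a⟫ = 0 ∧ ⟪x, b⟫ = 0 ∧
          s * fderiv ℝ R x a = 0 ∧ s * fderiv ℝ R x b = 0 ∧
          (∀ i, fderiv ℝ (φ (t i)) x a = 0 ∧ fderiv ℝ (φ (t i)) x b = 0) ∧
          ∀ θ : ℝ, ∑ i, w i * hq (φ (t i)) x a b θ + s * hq R x a b θ ≤ 0 := by
  classical
  have : FiniteDimensional ℝ E := FiniteDimensional.of_finrank_pos (by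
    rw [Fact.out (p := finrank ℝ E = n + 1)]; omega)
  have : ProperSpace E := FiniteDimensional.proper ℝ E
  -- the hypersurface
  set M : Set E := {z | ‖z‖ = 1 ∧ R z = 0} with hMdef
  have hM : IsCompact M := by
    refine (isCompact_sphere (0:E) 1).of_isClosed_subset ?_ fun z hz => by simpa using hz.1
    exact (isClosed_eq continuous_norm continuous_const).inter
      (isClosed_eq hR.continuous continuous_const)
  have hMne : M.Nonempty := by
    obtain ⟨x⟩ : Nonempty {x : sphere (0:E) 1 | R x = 0} := inferInstance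
    exact ⟨x, by simp, x.2⟩
  obtain ⟨z0, hz0, hmin⟩ := hM.exists_isMinOn hMne (f := fun z => ‖tg R z‖)
    (tg_cont hR).norm.continuousOn
  set c0 := ‖tg R z0‖ with hc0
  have hc0p : 0 < c0 := norm_pos_iff.2 (tg_ne hR hreg hz0.1 hz0.2)
  -- bounds
  have hR1 : Continuous fun p : Unit × E => fderiv ℝ R p.2 :=
    (hR.continuous_fderiv (by simp)).comp continuous_snd
  have hR2 : Continuous fun p : Unit × E => fderiv ℝ (fderiv ℝ R) p.2 := by
    have h : ContDiff ℝ ∞ (fderiv ℝ R) := hR.fderiv_right (m := ∞) (by simp)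
    exact (h.continuous_fderiv (by simp)).comp continuous_snd
  obtain ⟨C1, hC1⟩ := ((isCompact_univ (X := T)).prod
    (isCompact_closedBall (0:E) 1)).exists_bound_of_continuousOn
    (f := fun q : T × E => tg (φ q.1) q.2) (tg_cont2 h1 continuous_fst continuous_snd).continuousOn
  obtain ⟨C2, hC2⟩ := ((isCompact_univ (X := T)).prod ((isCompact_closedBall (0:E) 1).prod
    (isCompact_closedBall (0:E) 1))).exists_bound_of_continuousOn
    (f := fun q : T × E × E => hs (φ q.1) q.2.1 q.2.2 q.2.2)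
    (hs_cont h1 h2 continuous_fst continuous_snd.fst continuous_snd.snd
      continuous_snd.snd).continuousOn
  obtain ⟨C3, hC3⟩ := ((isCompact_closedBall (0:E) 1).prod
    (isCompact_closedBall (0:E) 1)).exists_bound_of_continuousOn
    (f := fun q : E × E => hs R q.1 q.2 q.2)
    (hs_cont (φ := fun _ : Unit => R) (t := fun _ => ()) hR1 hR2 continuous_const continuous_fst
      continuous_snd continuous_snd).continuousOn
  obtain ⟨t₀⟩ : Nonempty T := inferInstance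
  have hC1' : 0 ≤ C1 := (norm_nonneg _).trans (hC1 (t₀, 0) ⟨mem_univ _, by simp⟩)
  have hC2' : 0 ≤ C2 := (norm_nonneg _).trans (hC2 (t₀, 0, 0) ⟨mem_univ _, by simp, by simp⟩)
  have hC3' : 0 ≤ C3 := (norm_nonneg _).trans (hC3 (0, 0) ⟨by simp, by simp⟩)
  -- the critical points
  have hfc : Continuous fun p : T × sphere (0:E) 1 => φ p.1 p.2 :=
    h0.comp (continuous_fst.prodMk (continuous_subtype_val.comp continuous_snd))
  have hnet := fun k : ℕ => exists_net2 (⟨_, hfc⟩ : C(T × sphere (0:E) 1, ℝ))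
    (ε := 1 / ((k:ℝ) + 1)) (by positivity)
  choose I hIne hId using hnet
  set l : ℕ → ℝ := fun k => ((k:ℝ) + 1) * (I k).card with hldef
  have hTc : ∀ k, (1:ℝ) ≤ (I k).card := fun k => by
    exact_mod_cast (Finset.card_pos.2 (hIne k))
  have hl : ∀ k, 0 < l k := fun k => by
    have := hTc k
    have h2 : (0:ℝ) < (k:ℝ) + 1 := by positivity
    exact mul_pos h2 (by linarith)
  have hlk : ∀ k : ℕ, (k:ℝ) + 1 ≤ l k := fun k => by
    have h4 : (0:ℝ) < (k:ℝ) + 1 := by positivity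
    rw [hldef]
    exact le_mul_of_one_le_right h4.le (hTc k)
  have hap := fun k => approx2 hR hreg hconn hball hsc hφ (hIne k) (hl k)
  choose x a b σ hx hRx ha hb hab hxa hxb hσ hσR hσa hσb hgrad hsec using hap
  set w : ℕ → T → ℝ := fun k t => ww φ (I k) (l k) (x k) t with hwdef
  have hw0 : ∀ k t, 0 ≤ w k t := fun k t => (ww_pos (hIne k) t).le
  have hw1 : ∀ k, ∑ t ∈ I k, w k t = 1 := fun k => sum_ww (hIne k)
  -- bound for the multiplier
  have hσC : ∀ k, σ k ≤ C1 / c0 := by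
    intro k
    rcases eq_or_ne (σ k) 0 with h | h
    · rw [h]; positivity
    · have hR0 : R (x k) = 0 := (mul_eq_zero.1 (hσR k)).resolve_left h
      have h3 : c0 ≤ ‖tg R (x k)‖ := isMinOn_iff.1 hmin (x k) ⟨hx k, hR0⟩
      have h4 : σ k * ‖tg R (x k)‖ ≤ C1 := by
        have h5 : σ k • tg R (x k) = -∑ t ∈ I k, w k t • tg (φ t) (x k) :=
          eq_neg_of_add_eq_zero_right (hgrad k)
        have h6 : σ k * ‖tg R (x k)‖ = ‖σ k • tg R (x k)‖ := by
          rw [norm_smul, Real.norm_of_nonneg (hσ k)]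
        rw [h6, h5, norm_neg]
        calc ‖∑ t ∈ I k, w k t • tg (φ t) (x k)‖ ≤ ∑ t ∈ I k, w k t * C1 := by
              refine norm_sum_le_of_le _ fun t _ => ?_
              rw [norm_smul, Real.norm_of_nonneg (hw0 k t)]
              exact mul_le_mul_of_nonneg_left (hC1 (t, x k) ⟨mem_univ _, by simp [hx k]⟩) (hw0 k t)
          _ = C1 := by rw [← Finset.sum_mul, hw1, one_mul]
      rw [le_div_iff₀ hc0p]
      exact (mul_le_mul_of_nonneg_left h3 (hσ k)).trans h4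
  -- the variance
  have hvar : ∀ k u, (‖u‖ = 1) → (∑ t ∈ I k, w k t * (l k * (fderiv ℝ (φ t) (x k) u) ^ 2 +
      hs (φ t) (x k) u u) + σ k * hs R (x k) u u ≤ 0) →
      ∑ t ∈ I k, w k t * (fderiv ℝ (φ t) (x k) u) ^ 2 ≤ (C2 + C1 / c0 * C3) * (1 / ((k:ℝ) + 1)) := by
    intro k u hu h
    have e1 : ∑ t ∈ I k, w k t * (l k * (fderiv ℝ (φ t) (x k) u) ^ 2 + hs (φ t) (x k) u u) =
        l k * ∑ t ∈ I k, w k t * (fderiv ℝ (φ t) (x k) u) ^ 2 +
          ∑ t ∈ I k, w k t * hs (φ t) (x k) u u := by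
      rw [Finset.mul_sum, ← Finset.sum_add_distrib]
      exact Finset.sum_congr rfl fun t _ => by ring
    have e2 : -C2 ≤ ∑ t ∈ I k, w k t * hs (φ t) (x k) u u := by
      calc -C2 = ∑ t ∈ I k, w k t * (-C2) := by rw [← Finset.sum_mul, hw1, one_mul]
        _ ≤ _ := by
          refine Finset.sum_le_sum fun t _ => mul_le_mul_of_nonneg_left ?_ (hw0 k t)
          have := hC2 (t, x k, u) ⟨mem_univ _, by simp [hx k], by simp [hu]⟩
          rw [Real.norm_eq_abs] at this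
          exact (abs_le.1 this).1
    have e3 : -(C1 / c0 * C3) ≤ σ k * hs R (x k) u u := by
      have h5 := hC3 (x k, u) ⟨by simp [hx k], by simp [hu]⟩
      rw [Real.norm_eq_abs] at h5
      have h6 := (abs_le.1 h5).1
      have h7 : σ k * (-C3) ≤ σ k * hs R (x k) u u := mul_le_mul_of_nonneg_left h6 (hσ k)
      have h8 : σ k * C3 ≤ C1 / c0 * C3 := mul_le_mul_of_nonneg_right (hσC k) hC3'
      linarith
    set Vr := ∑ t ∈ I k, w k t * (fderiv ℝ (φ t) (x k) u) ^ 2 with hVr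
    have hV0 : 0 ≤ Vr := Finset.sum_nonneg fun t _ => mul_nonneg (hw0 k t) (sq_nonneg _)
    rw [e1] at h
    have e4 : l k * Vr ≤ C2 + C1 / c0 * C3 := by linarith
    have e5 : ((k:ℝ) + 1) * Vr ≤ C2 + C1 / c0 * C3 :=
      (mul_le_mul_of_nonneg_right (hlk k) hV0).trans e4
    rw [mul_one_div, le_div_iff₀ (by positivity)]
    linarith
  have hva : ∀ k, ∑ t ∈ I k, w k t * (fderiv ℝ (φ t) (x k) (a k)) ^ 2 ≤
      (C2 + C1 / c0 * C3) * (1 / ((k:ℝ) + 1)) := fun k => by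
    refine hvar k (a k) (ha k) ?_
    have h := hsec k 0
    simp only [← hs_eq_hq, Real.cos_zero, Real.sin_zero, one_smul, zero_smul, add_zero] at h
    exact h
  have hvb : ∀ k, ∑ t ∈ I k, w k t * (fderiv ℝ (φ t) (x k) (b k)) ^ 2 ≤
      (C2 + C1 / c0 * C3) * (1 / ((k:ℝ) + 1)) := fun k => by
    refine hvar k (b k) (hb k) ?_
    have h := hsec k (Real.pi / 2)
    simp only [← hs_eq_hq, Real.cos_pi_div_two, Real.sin_pi_div_two, one_smul, zero_smul,
      zero_add] at h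
    exact h
  have hsec2 : ∀ k θ, ∑ t ∈ I k, w k t * hq (φ t) (x k) (a k) (b k) θ +
      σ k * hq R (x k) (a k) (b k) θ ≤ 0 := by
    intro k θ
    refine le_trans ?_ (hsec k θ)
    refine add_le_add (Finset.sum_le_sum fun t _ => mul_le_mul_of_nonneg_left ?_ (hw0 k t)) le_rfl
    have : 0 ≤ l k * (fderiv ℝ (φ t) (x k) (Real.cos θ • a k + Real.sin θ • b k)) ^ 2 :=
      mul_nonneg (hl k).le (sq_nonneg _)
    linarith
  have hmax : ∀ k t, φ t (x k) ≤ ∑ t ∈ I k, w k t * φ t (x k) +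
      (1 / ((k:ℝ) + 1) + 1 / ((k:ℝ) + 1)) := by
    intro k t
    obtain ⟨t', ht', hd⟩ := hId k t
    have h3 := hd ⟨x k, by simp [hx k]⟩
    have h4 : φ t (x k) ≤ φ t' (x k) + 1 / ((k:ℝ) + 1) := h3
    have h5 := gibbs2 (φ := φ) (x := x k) (hl k) ht'
    have h6 : (I k).card / l k = 1 / ((k:ℝ) + 1) := by
      have h4 : (0:ℝ) < (k:ℝ) + 1 := by positivity
      have h5 : ((I k).card : ℝ) ≠ 0 := by linarith [hTc k] |> ne_of_gt
      rw [hldef]
      field_simp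
    rw [h6] at h5
    have h7 : ∑ t ∈ I k, ww φ (I k) (l k) (x k) t * φ t (x k) = ∑ t ∈ I k, w k t * φ t (x k) := rfl
    linarith
  -- the first subsequence
  obtain ⟨⟨x0, a0, b0, σ0⟩, -, κ, hκ, hlim⟩ :=
    (isCompact_closedBall (0 : E × E × E × ℝ) (max 1 (C1 / c0))).tendsto_subseq
      (x := fun k => (x k, a k, b k, σ k)) fun k => by
        rw [mem_closedBall, dist_zero_right, Prod.norm_mk, Prod.norm_mk, Prod.norm_mk]
        refine max_le ((hx k).le.trans (le_max_left _ _)) (max_le ((ha k).le.trans (le_max_left _ _))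
          (max_le ((hb k).le.trans (le_max_left _ _)) ?_))
        rw [Real.norm_of_nonneg (hσ k)]
        exact (hσC k).trans (le_max_right _ _)
  have hp : Tendsto (fun k => (x (κ k), a (κ k), b (κ k))) atTop (𝓝 (x0, a0, b0)) :=
    hlim.fst_nhds.prodMk_nhds (hlim.snd_nhds.fst_nhds.prodMk_nhds hlim.snd_nhds.snd_nhds.fst_nhds)
  -- the moments
  set Ψ : C((E × E × E) × T, ℝ × E × ℝ × ℝ × ℝ × ℝ) := ⟨fun q => (φ q.2 q.1.1, tg (φ q.2) q.1.1,
    (fderiv ℝ (φ q.2) q.1.1 q.1.2.1) ^ 2 + (fderiv ℝ (φ q.2) q.1.1 q.1.2.2) ^ 2,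
    hs (φ q.2) q.1.1 q.1.2.1 q.1.2.1,
    hs (φ q.2) q.1.1 q.1.2.1 q.1.2.2 + hs (φ q.2) q.1.1 q.1.2.2 q.1.2.1,
    hs (φ q.2) q.1.1 q.1.2.2 q.1.2.2), by
      have ct : Continuous fun q : (E × E × E) × T => q.2 := continuous_snd
      have cx : Continuous fun q : (E × E × E) × T => q.1.1 := continuous_fst.fst
      have ca : Continuous fun q : (E × E × E) × T => q.1.2.1 := continuous_fst.snd.fst
      have cb : Continuous fun q : (E × E × E) × T => q.1.2.2 := continuous_fst.snd.snd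
      have c1 : Continuous fun q : (E × E × E) × T => fderiv ℝ (φ q.2) q.1.1 :=
        h1.comp (ct.prodMk cx)
      refine (h0.comp (ct.prodMk cx)).prodMk ((tg_cont2 h1 ct cx).prodMk
        ((((c1.clm_apply ca).pow 2).add ((c1.clm_apply cb).pow 2)).prodMk
        ((hs_cont h1 h2 ct cx ca ca).prodMk (((hs_cont h1 h2 ct cx ca cb).add
          (hs_cont h1 h2 ct cx cb ca)).prodMk (hs_cont h1 h2 ct cx cb cb)))))⟩ with hΨ
  obtain ⟨⟨v0, G0, q0, A0, B0, D0⟩, hm0, ψ, hψ, hmom⟩ := moment Ψ hp (fun k => I (κ k))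
    (fun k => w (κ k)) (fun k t => hw0 _ _) (fun k => hw1 _)
  -- limits
  have hκψ : Tendsto (fun k => κ (ψ k)) atTop atTop := hκ.tendsto_atTop.comp hψ.tendsto_atTop
  have hlim' := hlim.comp hψ.tendsto_atTop
  have lx : Tendsto (fun k => x (κ (ψ k))) atTop (𝓝 x0) := hlim'.fst_nhds
  have la : Tendsto (fun k => a (κ (ψ k))) atTop (𝓝 a0) := hlim'.snd_nhds.fst_nhds
  have lb : Tendsto (fun k => b (κ (ψ k))) atTop (𝓝 b0) := hlim'.snd_nhds.snd_nhds.fst_nhds
  have lσ : Tendsto (fun k => σ (κ (ψ k))) atTop (𝓝 σ0) := hlim'.snd_nhds.snd_nhds.snd_nhds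
  have le : Tendsto (fun k => 1 / ((κ (ψ k) : ℝ) + 1)) atTop (𝓝 0) :=
    tendsto_one_div_add_atTop_nhds_zero_nat.comp hκψ
  have lv : Tendsto (fun k => ∑ t ∈ I (κ (ψ k)), w (κ (ψ k)) t * φ t (x (κ (ψ k)))) atTop
      (𝓝 v0) := by
    refine (hmom.fst_nhds).congr fun k => ?_
    rw [Prod.fst_sum]; rfl
  have lG : Tendsto (fun k => ∑ t ∈ I (κ (ψ k)), w (κ (ψ k)) t • tg (φ t) (x (κ (ψ k)))) atTop
      (𝓝 G0) := by
    refine (hmom.snd_nhds.fst_nhds).congr fun k => ?_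
    rw [Prod.snd_sum, Prod.fst_sum]; rfl
  have lq : Tendsto (fun k => ∑ t ∈ I (κ (ψ k)), w (κ (ψ k)) t *
      ((fderiv ℝ (φ t) (x (κ (ψ k))) (a (κ (ψ k)))) ^ 2 +
        (fderiv ℝ (φ t) (x (κ (ψ k))) (b (κ (ψ k)))) ^ 2)) atTop (𝓝 q0) := by
    refine (hmom.snd_nhds.snd_nhds.fst_nhds).congr fun k => ?_
    rw [Prod.snd_sum, Prod.snd_sum, Prod.fst_sum]; rfl
  have lA : Tendsto (fun k => ∑ t ∈ I (κ (ψ k)), w (κ (ψ k)) t *
      hs (φ t) (x (κ (ψ k))) (a (κ (ψ k))) (a (κ (ψ k)))) atTop (𝓝 A0) := by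
    refine (hmom.snd_nhds.snd_nhds.snd_nhds.fst_nhds).congr fun k => ?_
    rw [Prod.snd_sum, Prod.snd_sum, Prod.snd_sum, Prod.fst_sum]; rfl
  have lB : Tendsto (fun k => ∑ t ∈ I (κ (ψ k)), w (κ (ψ k)) t *
      (hs (φ t) (x (κ (ψ k))) (a (κ (ψ k))) (b (κ (ψ k))) +
        hs (φ t) (x (κ (ψ k))) (b (κ (ψ k))) (a (κ (ψ k))))) atTop (𝓝 B0) := by
    refine (hmom.snd_nhds.snd_nhds.snd_nhds.snd_nhds.fst_nhds).congr fun k => ?_
    rw [Prod.snd_sum, Prod.snd_sum, Prod.snd_sum, Prod.snd_sum, Prod.fst_sum]; rfl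
  have lD : Tendsto (fun k => ∑ t ∈ I (κ (ψ k)), w (κ (ψ k)) t *
      hs (φ t) (x (κ (ψ k))) (b (κ (ψ k))) (b (κ (ψ k)))) atTop (𝓝 D0) := by
    refine (hmom.snd_nhds.snd_nhds.snd_nhds.snd_nhds.snd_nhds).congr fun k => ?_
    rw [Prod.snd_sum, Prod.snd_sum, Prod.snd_sum, Prod.snd_sum, Prod.snd_sum]; rfl
  -- the limit conditions
  have hx0 : ‖x0‖ = 1 := tendsto_nhds_unique lx.norm (by simp only [hx]; exact tendsto_const_nhds)
  have ha0 : ‖a0‖ = 1 := tendsto_nhds_unique la.norm (by simp only [ha]; exact tendsto_const_nhds)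
  have hb0 : ‖b0‖ = 1 := tendsto_nhds_unique lb.norm (by simp only [hb]; exact tendsto_const_nhds)
  have hab0 : ⟪a0, b0⟫ = 0 := tendsto_nhds_unique (la.inner lb)
    (by simp only [hab]; exact tendsto_const_nhds)
  have hxa0 : ⟪x0, a0⟫ = 0 := tendsto_nhds_unique (lx.inner la)
    (by simp only [hxa]; exact tendsto_const_nhds)
  have hxb0 : ⟪x0, b0⟫ = 0 := tendsto_nhds_unique (lx.inner lb)
    (by simp only [hxb]; exact tendsto_const_nhds)
  have lR : Tendsto (fun k => R (x (κ (ψ k)))) atTop (𝓝 (R x0)) :=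
    (hR.continuous.tendsto x0).comp lx
  have hRx0 : R x0 ≤ 0 := le_of_tendsto' lR fun k => hRx _
  have hσ0 : 0 ≤ σ0 := ge_of_tendsto' lσ fun k => hσ _
  have hσR0 : σ0 * R x0 = 0 := tendsto_nhds_unique (lσ.mul lR)
    (by simp only [hσR]; exact tendsto_const_nhds)
  have cRd : Continuous fun q : E × E => fderiv ℝ R q.1 q.2 :=
    ((hR.continuous_fderiv (by simp)).comp continuous_fst).clm_apply continuous_snd
  have lRa : Tendsto (fun k => fderiv ℝ R (x (κ (ψ k))) (a (κ (ψ k)))) atTop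
      (𝓝 (fderiv ℝ R x0 a0)) := (cRd.tendsto (x0, a0)).comp (lx.prodMk_nhds la)
  have lRb : Tendsto (fun k => fderiv ℝ R (x (κ (ψ k))) (b (κ (ψ k)))) atTop
      (𝓝 (fderiv ℝ R x0 b0)) := (cRd.tendsto (x0, b0)).comp (lx.prodMk_nhds lb)
  have hσa0 : σ0 * fderiv ℝ R x0 a0 = 0 := tendsto_nhds_unique (lσ.mul lRa)
    (by simp only [hσa]; exact tendsto_const_nhds)
  have hσb0 : σ0 * fderiv ℝ R x0 b0 = 0 := tendsto_nhds_unique (lσ.mul lRb)
    (by simp only [hσb]; exact tendsto_const_nhds)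
  have hG0 : G0 + σ0 • tg R x0 = 0 := by
    have h3 := lG.add (lσ.smul (((tg_cont hR).tendsto x0).comp lx))
    refine tendsto_nhds_unique h3 ?_
    have : (fun k => ∑ t ∈ I (κ (ψ k)), w (κ (ψ k)) t • tg (φ t) (x (κ (ψ k))) +
        σ (κ (ψ k)) • (tg R ∘ fun k => x (κ (ψ k))) k) = fun _ => 0 := by
      funext k
      exact hgrad _
    rw [this]
    exact tendsto_const_nhds
  have hv0 : ∀ t, φ t x0 ≤ v0 := by
    intro t
    have h3 : Tendsto (fun k => φ t (x (κ (ψ k)))) atTop (𝓝 (φ t x0)) :=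
      ((hφ t).continuous.tendsto x0).comp lx
    have h4 := lv.add (le.add le)
    rw [add_zero, add_zero] at h4
    exact le_of_tendsto_of_tendsto' h3 h4 fun k => hmax _ _
  have hq0 : q0 = 0 := by
    refine tendsto_nhds_unique lq ?_
    have h3 : Tendsto (fun k => (C2 + C1 / c0 * C3) * (1 / ((κ (ψ k) : ℝ) + 1)) +
        (C2 + C1 / c0 * C3) * (1 / ((κ (ψ k) : ℝ) + 1))) atTop (𝓝 0) := by
      have := (le.const_mul (C2 + C1 / c0 * C3)).add (le.const_mul (C2 + C1 / c0 * C3))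
      simpa using this
    refine tendsto_of_tendsto_of_tendsto_of_le_of_le tendsto_const_nhds h3 (fun k => ?_)
      (fun k => ?_)
    · exact Finset.sum_nonneg fun t _ => mul_nonneg (hw0 _ _) (by positivity)
    · have h4 := hva (κ (ψ k))
      have h5 := hvb (κ (ψ k))
      show ∑ t ∈ I (κ (ψ k)), w (κ (ψ k)) t * ((fderiv ℝ (φ t) (x (κ (ψ k))) (a (κ (ψ k)))) ^ 2 +
        (fderiv ℝ (φ t) (x (κ (ψ k))) (b (κ (ψ k)))) ^ 2) ≤ _
      simp only [mul_add]
      rw [Finset.sum_add_distrib]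
      exact add_le_add h4 h5
  have hθ : ∀ θ : ℝ, (Real.cos θ ^ 2 * A0 + Real.cos θ * Real.sin θ * B0 + Real.sin θ ^ 2 * D0) +
      σ0 * hq R x0 a0 b0 θ ≤ 0 := by
    intro θ
    have h3 : Tendsto (fun k => hq R (x (κ (ψ k))) (a (κ (ψ k))) (b (κ (ψ k))) θ) atTop
        (𝓝 (hq R x0 a0 b0 θ)) := hq_tendsto hR θ lx la lb
    have h4 := (((lA.const_mul (Real.cos θ ^ 2)).add
      (lB.const_mul (Real.cos θ * Real.sin θ))).add (lD.const_mul (Real.sin θ ^ 2))).add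
      (lσ.mul h3)
    refine le_of_tendsto' h4 fun k => ?_
    have h5 := hsec2 (κ (ψ k)) θ
    refine le_trans (le_of_eq ?_) h5
    congr 1
    rw [Finset.mul_sum, Finset.mul_sum, Finset.mul_sum, ← Finset.sum_add_distrib,
      ← Finset.sum_add_distrib]
    exact Finset.sum_congr rfl fun t _ => by unfold hq; ring
  -- the decomposition
  obtain ⟨ι, hι, z, w', hz, haff, hw'0, hw'1, hsum⟩ := eq_pos_convex_span_of_mem_convexHull hm0
  choose t ht using fun i => hz ⟨i, rfl⟩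
  have e1 : ∀ i, (z i).1 = φ (t i) x0 := fun i => by rw [← ht i]; rfl
  have e2 : ∀ i, (z i).2.1 = tg (φ (t i)) x0 := fun i => by rw [← ht i]; rfl
  have e3 : ∀ i, (z i).2.2.1 = (fderiv ℝ (φ (t i)) x0 a0) ^ 2 + (fderiv ℝ (φ (t i)) x0 b0) ^ 2 :=
    fun i => by rw [← ht i]; rfl
  have e4 : ∀ i, (z i).2.2.2.1 = hs (φ (t i)) x0 a0 a0 := fun i => by rw [← ht i]; rfl
  have e5 : ∀ i, (z i).2.2.2.2.1 = hs (φ (t i)) x0 a0 b0 + hs (φ (t i)) x0 b0 a0 :=
    fun i => by rw [← ht i]; rfl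
  have e6 : ∀ i, (z i).2.2.2.2.2 = hs (φ (t i)) x0 b0 b0 := fun i => by rw [← ht i]; rfl
  have s1 : ∑ i, w' i * φ (t i) x0 = v0 := by
    have h := congrArg Prod.fst hsum
    rw [Prod.fst_sum] at h
    refine Eq.trans ?_ h
    exact Finset.sum_congr rfl fun i _ => by rw [← e1 i]; rfl
  have s2 : ∑ i, w' i • tg (φ (t i)) x0 = G0 := by
    have h := congrArg (fun p => p.2.1) hsum
    simp only [Prod.snd_sum, Prod.fst_sum] at h
    refine Eq.trans ?_ h
    exact Finset.sum_congr rfl fun i _ => by rw [← e2 i]; rfl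
  have s3 : ∑ i, w' i * ((fderiv ℝ (φ (t i)) x0 a0) ^ 2 + (fderiv ℝ (φ (t i)) x0 b0) ^ 2) = 0 := by
    have h := congrArg (fun p => p.2.2.1) hsum
    simp only [Prod.snd_sum, Prod.fst_sum] at h
    rw [hq0] at h
    refine Eq.trans ?_ h
    exact Finset.sum_congr rfl fun i _ => by rw [← e3 i]; rfl
  have s4 : ∑ i, w' i * hs (φ (t i)) x0 a0 a0 = A0 := by
    have h := congrArg (fun p => p.2.2.2.1) hsum
    simp only [Prod.snd_sum, Prod.fst_sum] at h
    refine Eq.trans ?_ h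
    exact Finset.sum_congr rfl fun i _ => by rw [← e4 i]; rfl
  have s5 : ∑ i, w' i * (hs (φ (t i)) x0 a0 b0 + hs (φ (t i)) x0 b0 a0) = B0 := by
    have h := congrArg (fun p => p.2.2.2.2.1) hsum
    simp only [Prod.snd_sum, Prod.fst_sum] at h
    refine Eq.trans ?_ h
    exact Finset.sum_congr rfl fun i _ => by rw [← e5 i]; rfl
  have s6 : ∑ i, w' i * hs (φ (t i)) x0 b0 b0 = D0 := by
    have h := congrArg (fun p => p.2.2.2.2.2) hsum
    simp only [Prod.snd_sum] at h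
    refine Eq.trans ?_ h
    exact Finset.sum_congr rfl fun i _ => by rw [← e6 i]; rfl
  have hact : ∀ i, φ (t i) x0 = v0 := mean_eq hw'0 hw'1 (fun i => hv0 (t i)) (le_of_eq s1.symm)
  have hzero : ∀ i, (fderiv ℝ (φ (t i)) x0 a0) ^ 2 + (fderiv ℝ (φ (t i)) x0 b0) ^ 2 = 0 := by
    intro i
    have h3 : ∀ i ∈ Finset.univ, 0 ≤ w' i * ((fderiv ℝ (φ (t i)) x0 a0) ^ 2 +
        (fderiv ℝ (φ (t i)) x0 b0) ^ 2) := fun i _ => mul_nonneg (hw'0 i).le (by positivity)
    have h4 := (Finset.sum_eq_zero_iff_of_nonneg h3).1 s3 i (Finset.mem_univ i)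
    exact (mul_eq_zero.1 h4).resolve_left (hw'0 i).ne'
  have hza : ∀ i, fderiv ℝ (φ (t i)) x0 a0 = 0 := fun i => by
    nlinarith [hzero i, sq_nonneg (fderiv ℝ (φ (t i)) x0 a0), sq_nonneg (fderiv ℝ (φ (t i)) x0 b0)]
  have hzb : ∀ i, fderiv ℝ (φ (t i)) x0 b0 = 0 := fun i => by
    nlinarith [hzero i, sq_nonneg (fderiv ℝ (φ (t i)) x0 a0), sq_nonneg (fderiv ℝ (φ (t i)) x0 b0)]
  have hcard : Fintype.card ι ≤ n + 2 := by
    refine card_bound2 hx0 ha0 hb0 hxa0 hxb0 hab0 haff (v := v0) (fun i => (e1 i).trans (hact i))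
      (fun i => ?_) (fun i => ?_) (fun i => ?_) (fun i => (e3 i).trans (hzero i))
    · rw [e2 i, real_inner_comm]; exact tg_orth hx0
    · rw [e2 i, real_inner_comm, ← fderiv_eq_tg (hφ _) hxa0]; exact hza i
    · rw [e2 i, real_inner_comm, ← fderiv_eq_tg (hφ _) hxb0]; exact hzb i
  -- the indices
  set e := (Fintype.equivFin ι).symm with he
  refine ⟨x0, σ0, hx0, hRx0, hσ0, hσR0, Fintype.card ι, fun i => t (e i), fun i => w' (e i), hcard,
    fun i => hw'0 _, ?_, fun i t' => ?_, fun v hv => ?_, a0, b0, ha0, hb0, hab0, hxa0, hxb0, hσa0,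
    hσb0, fun i => ⟨hza _, hzb _⟩, fun θ => ?_⟩
  · rw [Equiv.sum_comp e w', hw'1]
  · rw [hact]; exact hv0 t'
  · have h3 := e.sum_comp fun i => w' i * fderiv ℝ (φ (t i)) x0 v
    show ∑ i, w' (e i) * fderiv ℝ (φ (t (e i))) x0 v + _ = 0
    rw [h3, fderiv_eq_tg hR hv]
    have h4 : ⟪G0 + σ0 • tg R x0, v⟫ = 0 := by rw [hG0, inner_zero_left]
    rw [inner_add_left, inner_smul_left, ← s2, sum_inner] at h4
    rw [← h4]
    congr 1
    refine Finset.sum_congr rfl fun i _ => ?_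
    rw [inner_smul_left, ← fderiv_eq_tg (hφ _) hv]
    rfl
  · have h3 := e.sum_comp fun i => w' i * hq (φ (t i)) x0 a0 b0 θ
    show ∑ i, w' (e i) * hq (φ (t (e i))) x0 a0 b0 θ + _ ≤ 0
    rw [h3]
    refine le_trans (le_of_eq ?_) (hθ θ)
    congr 1
    rw [← s4, ← s5, ← s6, Finset.mul_sum, Finset.mul_sum, Finset.mul_sum, ← Finset.sum_add_distrib,
      ← Finset.sum_add_distrib]
    exact Finset.sum_congr rfl fun i _ => by unfold hq; ring

end Pool.Agent.H22.EQ
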